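import Mathlib

/-!
# Counting and pigeonhole for the extensions (helper13)
-/

set_option autoImplicit false

namespace Pool.Agent.P8H13.AD

open Finset

open Classical in
/-- the vectors `τ` with given differences at `J` places are few -/
theorem few {R J : ℕ} (Y : ℕ) (r : Fin R) (rs : Fin J → Fin R) (hrs : Function.Injective rs)
    (hr : ∀ s, rs s ≠ r) (off : Fin J → ℤ) (Q : ℕ) (hQ : 1 ≤ Q) (E : Finset (Fin J → ℤ)) :
    ((Fintype.piFinset (fun _ : Fin R => Icc 1 Y)).filter (fun τ =>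
      (fun s => off s + Q * ((τ (rs s) : ℤ) - τ r)) ∈ E)).card ≤ E.card * Y ^ (R - J) := by
  obtain ⟨I, hI⟩ : ∃ I : Finset (Fin R), I = univ.image rs := ⟨_, rfl⟩
  have hIc : I.card = J := by
    rw [hI, card_image_of_injective _ hrs, card_univ, Fintype.card_fin]
  obtain ⟨F, hF⟩ : ∃ F : Finset (Fin R → ℕ),
    F = Fintype.piFinset (fun x : Fin R => if x ∈ I then {1} else Icc 1 Y) := ⟨_, rfl⟩
  have hFc : F.card = Y ^ (R - J) := by
    rw [hF, Fintype.card_piFinset]
    have h1 : ∀ x : Fin R, (if x ∈ I then ({1} : Finset ℕ) else Icc 1 Y).card =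
        if x ∈ I then 1 else Y := by
      intro x
      split_ifs
      · rfl
      · simp
    rw [prod_congr rfl (fun x _ => h1 x), prod_ite, prod_const_one, one_mul, prod_const]
    congr 1
    have h2 : (univ.filter (fun x => x ∉ I)) = univ \ I := by
      ext x; simp
    rw [h2, card_sdiff_of_subset (subset_univ _), card_univ, Fintype.card_fin, hIc]
  rw [← hFc, ← card_product]
  apply card_le_card_of_injOn (fun τ : Fin R → ℕ =>
    ((fun s => off s + Q * ((τ (rs s) : ℤ) - τ r)), (fun x => if x ∈ I then 1 else τ x)))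
  · intro τ hτ
    rw [mem_coe, mem_filter, Fintype.mem_piFinset] at hτ
    rw [mem_coe, mem_product]
    refine ⟨hτ.2, ?_⟩
    rw [hF, Fintype.mem_piFinset]
    intro x
    by_cases hx : x ∈ I
    · simp [hx]
    · have := hτ.1 x
      simp only [if_neg hx]
      exact this
  · intro τ _ τ' _ h
    have h1 := congrArg Prod.fst h
    have h2 := congrArg Prod.snd h
    simp only at h1 h2
    have h3 : ∀ x, x ∉ I → τ x = τ' x := by
      intro x hx
      have := congrFun h2 x
      simpa [hx] using this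
    have hrI : r ∉ I := by
      rw [hI, mem_image]
      rintro ⟨s, -, hs⟩
      exact hr s hs
    funext x
    by_cases hx : x ∈ I
    · rw [hI, mem_image] at hx
      obtain ⟨s, -, rfl⟩ := hx
      have h4 := congrFun h1 s
      have h5 := h3 r hrI
      rw [h5] at h4
      have h6 : (Q : ℤ) * ((τ (rs s) : ℤ) - τ' r) = Q * ((τ' (rs s) : ℤ) - τ' r) := add_left_cancel h4
      have h7 := mul_left_cancel₀ (by exact_mod_cast (by omega : Q ≠ 0)) h6
      have h8 : (τ (rs s) : ℤ) = τ' (rs s) := by linarith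
      exact_mod_cast h8
    · exact h3 x hx

/-- two classes in one layer, and elements of `J` other layers -/
theorem extract (J : ℕ) (S : Finset (Fin (4 * (J + 1)) × Fin 4)) (hS : 4 * (J + 1) + 1 ≤ S.card) :
    ∃ (r : Fin (4 * (J + 1))) (g h : Fin 4) (rs : Fin J → Fin (4 * (J + 1))) (gs : Fin J → Fin 4),
      g ≠ h ∧ (r, g) ∈ S ∧ (r, h) ∈ S ∧ (∀ s, (rs s, gs s) ∈ S) ∧ Function.Injective rs ∧ ∀ s, rs s ≠ r := by
  classical
  obtain ⟨w, hw, w', hw', hne, heq⟩ := exists_ne_map_eq_of_card_lt_of_maps_to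
    (s := S) (t := (univ : Finset (Fin (4 * (J + 1))))) (f := Prod.fst)
    (by rw [card_univ, Fintype.card_fin]; omega) (fun _ _ => mem_univ _)
  obtain ⟨Ly, hLy⟩ : ∃ Ly : Finset (Fin (4 * (J + 1))), Ly = S.image Prod.fst := ⟨_, rfl⟩
  have h1 : S.card ≤ 4 * Ly.card := by
    rw [hLy]
    refine card_le_mul_card_image S 4 (fun a _ => ?_)
    calc (S.filter (fun x => x.1 = a)).card ≤ ((univ : Finset (Fin 4)).image (fun g => (a, g))).card := by
          apply card_le_card
          intro x hx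
          rw [mem_filter] at hx
          rw [mem_image]
          exact ⟨x.2, mem_univ _, Prod.ext hx.2.symm rfl⟩
      _ ≤ 4 := card_image_le.trans (by simp)
  have h2 : J + 1 ≤ (Ly.erase w.1).card := by
    have := pred_card_le_card_erase (s := Ly) (a := w.1)
    omega
  obtain ⟨Z, hZ1, hZ2⟩ := exists_subset_card_eq (s := Ly.erase w.1) (n := J) (by omega)
  obtain ⟨rs, hrs⟩ : ∃ rs : Fin J → Fin (4 * (J + 1)), rs = fun i => (Z.orderIsoOfFin hZ2 i : Fin (4 * (J + 1))) :=
    ⟨_, rfl⟩
  have hrsZ : ∀ s, rs s ∈ Z := by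
    intro s
    rw [hrs]
    exact (Z.orderIsoOfFin hZ2 s).2
  have hex : ∀ s, ∃ g : Fin 4, (rs s, g) ∈ S := by
    intro s
    have h3 := (mem_erase.1 (hZ1 (hrsZ s))).2
    rw [hLy, mem_image] at h3
    obtain ⟨x, hx, hx1⟩ := h3
    exact ⟨x.2, by rw [← hx1]; exact hx⟩
  choose gs hgs using hex
  refine ⟨w.1, w.2, w'.2, rs, gs, ?_, hw, ?_, hgs, ?_, fun s => (mem_erase.1 (hZ1 (hrsZ s))).1⟩
  · intro h
    exact hne (Prod.ext heq h)
  · rw [heq]; exact hw'
  · intro i j hij
    rw [hrs] at hij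
    exact (Z.orderIsoOfFin hZ2).injective (Subtype.ext hij)

end Pool.Agent.P8H13.AD
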