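import Mathlib
import Pool.Agent.H304R3.Corner

/-!
# Exact patterns along progressions, from van der Waerden's theorem (helper13)
-/

set_option autoImplicit false

namespace Pool.Agent.P8H13.AD

open Finset

open Classical in
/-- along a long progression the exact pattern is constant on a subprogression -/
theorem vref (ι : Type) [Fintype ι] (l : ℕ) : ∃ W B0 : ℕ, 1 ≤ W ∧ 1 ≤ B0 ∧
    ∀ (P : ι → ℕ → Prop) (d : ℕ) (S : Finset ℕ), S.Nonempty →
      ∃ (x s : ℕ) (Z : Finset ι), 1 ≤ s ∧ s ≤ W ∧ x + l * s ≤ W ∧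
        (S.card : ℝ) ≤ B0 * ((S.filter (fun n => ∀ k ≤ l, ∀ i,
          (P i (n + (x + k * s) * d) ↔ i ∈ Z))).card : ℝ) := by
  obtain ⟨W, hW⟩ := Pool.Agent.H304R3.Corner.vdw l (Fintype.card (Finset ι))
  refine ⟨W + 1, (W + 1) * (W + 1) * Fintype.card (Finset ι), by omega,
    Nat.succ_le_of_lt (Nat.mul_pos (by positivity) Fintype.card_pos), fun P d S hS => ?_⟩
  have h1 : ∀ n : ℕ, ∃ t : ℕ × ℕ, 1 ≤ t.2 ∧ t.2 ≤ W ∧ t.1 + l * t.2 ≤ W ∧ ∀ k ≤ l, ∀ i,
      (P i (n + (t.1 + k * t.2) * d) ↔ P i (n + t.1 * d)) := by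
    intro n
    obtain ⟨x, s, hs1, hs2, hx, hc⟩ := hW (fun j => Fintype.equivFin (Finset ι)
      (univ.filter (fun i => P i (n + j * d))))
    refine ⟨(x, s), hs1, hs2, hx, fun k hk i => ?_⟩
    have h2 := (Fintype.equivFin (Finset ι)).injective (hc k hk)
    have h3 : i ∈ univ.filter (fun i => P i (n + (x + k * s) * d)) ↔
        i ∈ univ.filter (fun i => P i (n + x * d)) := by rw [h2]
    simpa using h3
  choose t ht1 ht2 ht3 ht4 using h1
  set f : ℕ → (ℕ × ℕ) × Finset ι := fun n =>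
    (t n, univ.filter (fun i => P i (n + (t n).1 * d))) with hf
  set R : Finset ((ℕ × ℕ) × Finset ι) := (range (W + 1) ×ˢ range (W + 1)) ×ˢ univ with hR
  have hmaps : ∀ n ∈ S, f n ∈ R := by
    intro n _
    rw [hR, mem_product, mem_product, mem_range, mem_range]
    refine ⟨⟨?_, ?_⟩, mem_univ _⟩
    · have := ht3 n
      show (t n).1 < W + 1
      omega
    · have := ht2 n
      show (t n).2 < W + 1
      omega
  have hRc : R.card = (W + 1) * (W + 1) * Fintype.card (Finset ι) := by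
    rw [hR, card_product, card_product, card_range, card_univ]
  have hRne : R.Nonempty := by
    obtain ⟨n, hn⟩ := hS
    exact ⟨f n, hmaps n hn⟩
  obtain ⟨y, hy, hyc⟩ := exists_le_card_fiber_of_nsmul_le_card_of_maps_to hmaps hRne
    (b := (S.card : ℝ) / R.card) (by
      rw [nsmul_eq_mul, mul_div_cancel₀]
      have : 0 < R.card := hRne.card_pos
      positivity)
  have hSp : 0 < (S.card : ℝ) := by exact_mod_cast hS.card_pos
  have hRp : 0 < (R.card : ℝ) := by exact_mod_cast hRne.card_pos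
  have hne : (S.filter (fun n => f n = y)).Nonempty := by
    rw [← card_pos]
    have h5 : (0 : ℝ) < ((S.filter (fun n => f n = y)).card : ℝ) := lt_of_lt_of_le (by positivity) hyc
    exact_mod_cast h5
  obtain ⟨n0, hn0⟩ := hne
  have hfn0 := (mem_filter.1 hn0).2
  refine ⟨y.1.1, y.1.2, y.2, ?_, ?_, ?_, ?_⟩
  · rw [← hfn0]; exact ht1 n0
  · rw [← hfn0]; exact (ht2 n0).trans (by omega)
  · rw [← hfn0]; exact (ht3 n0).trans (by omega)
  · have h6 : (S.filter (fun n => f n = y)).card ≤ (S.filter (fun n => ∀ k ≤ l, ∀ i,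
        (P i (n + (y.1.1 + k * y.1.2) * d) ↔ i ∈ y.2))).card := by
      apply card_le_card
      intro n hn
      rw [mem_filter] at hn ⊢
      refine ⟨hn.1, fun k hk i => ?_⟩
      have h7 := ht4 n k hk i
      rw [← hn.2]
      show P i (n + ((t n).1 + k * (t n).2) * d) ↔ i ∈ univ.filter (fun i => P i (n + (t n).1 * d))
      rw [h7]
      simp
    have h8 : ((S.filter (fun n => f n = y)).card : ℝ) ≤ ((S.filter (fun n => ∀ k ≤ l, ∀ i,
        (P i (n + (y.1.1 + k * y.1.2) * d) ↔ i ∈ y.2))).card : ℝ) := by exact_mod_cast h6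
    rw [div_le_iff₀ hRp] at hyc
    have h9 : ((((W + 1) * (W + 1) * Fintype.card (Finset ι) : ℕ)) : ℝ) = (R.card : ℝ) := by
      rw [hRc]
    rw [h9]
    calc (S.card : ℝ) ≤ ((S.filter (fun n => f n = y)).card : ℝ) * R.card := hyc
      _ = R.card * ((S.filter (fun n => f n = y)).card : ℝ) := mul_comm _ _
      _ ≤ _ := mul_le_mul_of_nonneg_left h8 hRp.le

/-- two adjacent elements of different classes -/
theorem adjacent {T K : ℕ} (c : Fin T × Fin K → ℕ) (hc : Function.Injective c)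
    (Z : Finset (Fin T × Fin K)) (h : ∃ z ∈ Z, ∃ w ∈ Z, z.1 ≠ w.1) :
    ∃ z ∈ Z, ∃ w ∈ Z, z.1 ≠ w.1 ∧ c z < c w ∧ ∀ v ∈ Z, ¬ (c z < c v ∧ c v < c w) := by
  classical
  obtain ⟨z0, hz0, w0, hw0, hne⟩ := h
  set Q : Finset ((Fin T × Fin K) × (Fin T × Fin K)) :=
    (Z ×ˢ Z).filter (fun x => x.1.1 ≠ x.2.1 ∧ c x.1 < c x.2) with hQ
  have hQne : Q.Nonempty := by
    have hcne : c z0 ≠ c w0 := fun h => hne (by rw [hc h])
    rcases lt_or_gt_of_ne hcne with h | h
    · exact ⟨(z0, w0), mem_filter.2 ⟨mem_product.2 ⟨hz0, hw0⟩, hne, h⟩⟩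
    · exact ⟨(w0, z0), mem_filter.2 ⟨mem_product.2 ⟨hw0, hz0⟩, hne.symm, h⟩⟩
  obtain ⟨⟨z, w⟩, hzw, hmin⟩ := exists_min_image Q (fun x => c x.2 - c x.1) hQne
  obtain ⟨h1, h2, h3⟩ := mem_filter.1 hzw
  obtain ⟨hz, hw⟩ := mem_product.1 h1
  refine ⟨z, hz, w, hw, h2, h3, fun v hv hvb => ?_⟩
  by_cases h4 : z.1 = v.1
  · have h5 : v.1 ≠ w.1 := by rw [← h4]; exact h2
    have h6 := hmin (v, w) (mem_filter.2 ⟨mem_product.2 ⟨hv, hw⟩, h5, hvb.2⟩)
    simp only at h6
    omega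
  · have h6 := hmin (z, v) (mem_filter.2 ⟨mem_product.2 ⟨hz, hv⟩, h4, hvb.1⟩)
    simp only at h6
    omega

end Pool.Agent.P8H13.AD
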