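import Mathlib
import Pool.Agent.P8H13.AD.Vdw
import Pool.Agent.Y827.HN.Forced

/-!
# Gaps between consecutive primes along narrow progressions, from classes of shifts (helper13)
-/

set_option autoImplicit false

namespace Pool.Agent.P8H13.AD

open Finset Filter Topology
open Pool.Agent.Y827.RO Pool.Agent.Y827.HN

/-- `p ≡ a (mod N)` is a prime and the next prime is `p + g` -/
def GapP (N a g p : ℕ) : Prop :=
  p ≡ a [MOD N] ∧ p.Prime ∧ (p + g).Prime ∧ ∀ t : ℕ, p < t → t < p + g → ¬ t.Prime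

open Classical in
/-- the number of the `m ≤ x` such that each of the `l` numbers `p = m, m + D, ..., m + (l-1) D` is a prime
`≡ a (mod N)` for which the next prime is `p + g` -/
noncomputable def cG (N a g l D x : ℕ) : ℕ :=
  ((Icc 1 x).filter (fun m : ℕ => ∀ j < l, GapP N a g (m + j * D))).card

/-- many narrow progressions -/
def GapAt (N a g l C x : ℕ) : Prop :=
  ∃ D : ℕ, 1 ≤ D ∧ (D : ℝ) ≤ Real.log x ^ C ∧ (x : ℝ) / Real.log x ^ C ≤ (cG N a g l D x : ℝ)

theorem GapAt_len {N a g l l' C x : ℕ} (hl : l ≤ l') (h : GapAt N a g l' C x) : GapAt N a g l C x := by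
  classical
  obtain ⟨D, h1, h2, h3⟩ := h
  refine ⟨D, h1, h2, h3.trans ?_⟩
  rw [Nat.cast_le]
  unfold cG
  apply card_le_card
  intro n hn
  rw [mem_filter] at hn ⊢
  exact ⟨hn.1, fun j hj => hn.2 j (lt_of_lt_of_le hj hl)⟩

/-- the size conditions -/
theorem sizes (N W B0 C A0 : ℕ) (hN : 1 ≤ N) : ∀ᶠ x : ℕ in atTop,
    (1 : ℝ) ≤ Real.log x ∧ (4 * N * B0 : ℝ) ≤ Real.log x ∧ ((N : ℝ) * W) ≤ Real.log x ∧
    (N : ℝ) * W * Real.log x ^ C ≤ x / 4 ∧ (A0 : ℝ) ≤ x / 4 ∧ 6 * N ≤ x := by
  have hlog : Tendsto (fun x : ℕ => Real.log x) atTop atTop :=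
    Real.tendsto_log_atTop.comp tendsto_natCast_atTop_atTop
  have h1 := hlog.eventually_ge_atTop 1
  have h2 := hlog.eventually_ge_atTop (4 * N * B0 : ℝ)
  have h3 := hlog.eventually_ge_atTop ((N : ℝ) * W)
  have h4 : ∀ᶠ x : ℕ in atTop, (N : ℝ) * W * Real.log x ^ C ≤ x / 4 := by
    have h5 : (fun x : ℝ => Real.log x ^ C) =o[atTop] (fun x : ℝ => x) :=
      Real.isLittleO_pow_log_id_atTop
    have h6 := (h5.comp_tendsto tendsto_natCast_atTop_atTop).def
      (c := 1 / (4 * ((N : ℝ) * W + 1))) (by positivity)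
    filter_upwards [h6, h1] with x hx hx1
    simp only [Function.comp, Real.norm_eq_abs] at hx
    rw [abs_of_nonneg (by positivity), abs_of_nonneg (Nat.cast_nonneg _)] at hx
    have hx0 : (0 : ℝ) ≤ x := Nat.cast_nonneg _
    have hNW : (0 : ℝ) ≤ (N : ℝ) * W := by positivity
    calc (N : ℝ) * W * Real.log x ^ C ≤ (N : ℝ) * W * (1 / (4 * ((N : ℝ) * W + 1)) * x) :=
          mul_le_mul_of_nonneg_left hx hNW
      _ = ((N : ℝ) * W / ((N : ℝ) * W + 1)) * (x / 4) := by field_simp
      _ ≤ 1 * (x / 4) := by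
          refine mul_le_mul_of_nonneg_right ?_ (by positivity)
          rw [div_le_one (by positivity)]
          linarith
      _ = x / 4 := one_mul _
  have h7 : ∀ᶠ x : ℕ in atTop, (A0 : ℝ) ≤ x / 4 := by
    filter_upwards [eventually_ge_atTop (4 * A0)] with x hx
    have : (4 * A0 : ℝ) ≤ x := by exact_mod_cast hx
    linarith
  filter_upwards [h1, h2, h3, h4, h7, eventually_ge_atTop (6 * N)] with x a1 a2 a3 a4 a5 a6
  exact ⟨a1, a2, a3, a4, a5, a6⟩

open Classical in
theorem cons {T K : ℕ}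
    (hnar : ∀ H : Fin T → Fin K → ℤ × ℤ, Function.Injective (fun x : Fin T × Fin K => H x.1 x.2) →
      (∀ g i, 0 < (H g i).1 ∧ IsCoprime (H g i).1 (H g i).2) →
      (∀ p : ℕ, p.Prime → p ≤ T * K → ∃ r : ℤ, ∀ g i, ¬ (p : ℤ) ∣ (H g i).1 * r + (H g i).2) →
      ∀ l : ℕ, ∃ C : ℕ, ∀ᶠ N : ℕ in atTop, ∃ (S : Finset (Fin T)) (σ : Fin T → Fin K),
        1 + 1 ≤ S.card ∧ QN l C N (S.image (fun g => H g (σ g))))
    (N a : ℕ) (hN : 1 ≤ N) (ha : a.Coprime N) (c : Fin T × Fin K → ℕ) (hc : Function.Injective c)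
    (hadm : ∀ p : ℕ, p.Prime → p ≤ T * K → ¬ p ∣ N → ∃ r : ℤ, ∀ z, ¬ (p : ℤ) ∣ c z + r) (l : ℕ) :
    ∃ C : ℕ, ∀ᶠ x : ℕ in atTop, ∃ z w : Fin T × Fin K, z.1 ≠ w.1 ∧ c z < c w ∧
      GapAt N a (N * (c w - c z)) l C x := by
  obtain ⟨W, B0, hW1, hB0, href⟩ := vref (Fin T × Fin K) l
  obtain ⟨A0, hA0⟩ : ∃ A0 : ℕ, A0 = a + N * ∑ z, c z := ⟨_, rfl⟩
  have hcA : ∀ z, a + N * c z ≤ A0 := by
    intro z
    rw [hA0]
    exact Nat.add_le_add_left (Nat.mul_le_mul_left _
      (single_le_sum (f := c) (fun _ _ => Nat.zero_le _) (mem_univ z))) _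
  obtain ⟨Ub, hUb⟩ : ∃ Ub : Finset ℕ, Ub = (range (A0 + 1)).filter
    (fun s => s.Coprime N ∧ ∀ z, s ≠ a + N * c z) := ⟨_, rfl⟩
  have hUbm : ∀ s ∈ Ub, s.Coprime N ∧ ∀ z, s ≠ a + N * c z := by
    intro s hs
    rw [hUb, mem_filter] at hs
    exact hs.2
  have hNz : (0 : ℤ) < N := by exact_mod_cast hN
  have hcop : ∀ z, (a + N * c z).Coprime N := by
    intro z
    rw [Nat.coprime_add_mul_left_left]
    exact ha
  obtain ⟨C, hC⟩ := forced (M := 1) hnar (fun g i => ((N : ℤ), ((a + N * c (g, i) : ℕ) : ℤ)))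
    (fun s : Ub => ((N : ℤ), ((s : ℕ) : ℤ)))
    (by
      intro y y' h
      have h1 : ((a + N * c (y.1, y.2) : ℕ) : ℤ) = ((a + N * c (y'.1, y'.2) : ℕ) : ℤ) :=
        congrArg Prod.snd h
      have h2 : a + N * c (y.1, y.2) = a + N * c (y'.1, y'.2) := by exact_mod_cast h1
      have h3 : N * c (y.1, y.2) = N * c (y'.1, y'.2) := by omega
      have h4 := Nat.eq_of_mul_eq_mul_left (by omega) h3
      exact hc h4)
    (by
      intro s g i h
      have h1 : ((s : ℕ) : ℤ) = ((a + N * c (g, i) : ℕ) : ℤ) := congrArg Prod.snd h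
      have h2 : (s : ℕ) = a + N * c (g, i) := by exact_mod_cast h1
      exact (hUbm s s.2).2 _ h2)
    (fun g i => ⟨hNz, (Nat.isCoprime_iff_coprime.2 (hcop (g, i))).symm⟩)
    (fun s => ⟨hNz, (Nat.isCoprime_iff_coprime.2 (hUbm s s.2).1).symm⟩)
    (by
      intro p hp hpT
      by_cases hpN : p ∣ N
      · refine ⟨0, fun g i h => ?_⟩
        have h0 : (p : ℤ) ∣ (N : ℤ) * 0 + ((a + N * c (g, i) : ℕ) : ℤ) := h
        rw [mul_zero, zero_add] at h0
        have h1 : p ∣ a + N * c (g, i) := by exact_mod_cast h0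
        have h2 : p ∣ Nat.gcd (a + N * c (g, i)) N := Nat.dvd_gcd h1 hpN
        rw [(hcop (g, i))] at h2
        exact hp.one_lt.ne' (Nat.dvd_one.1 h2)
      · obtain ⟨r, hr⟩ := hadm p hp hpT hpN
        have hpc : IsCoprime (N : ℤ) (p : ℤ) := by
          rw [Nat.isCoprime_iff_coprime]
          exact ((Nat.Prime.coprime_iff_not_dvd hp).2 hpN).symm
        obtain ⟨s, t, hst⟩ := hpc
        refine ⟨r - s * a, fun g i h => hr (g, i) ?_⟩
        -- `N (r - s a) + a + N c = N (c + r) + a (1 - s N) = N (c + r) + a t p`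
        have h1 : (p : ℤ) ∣ N * (c (g, i) + r) := by
          have e : (N : ℤ) * (c (g, i) + r) =
              (N * (r - s * a) + ((a + N * c (g, i) : ℕ) : ℤ)) - p * (t * a) := by
            push_cast
            linear_combination (a : ℤ) * hst
          rw [e]
          exact dvd_sub h (dvd_mul_right _ _)
        rcases (Nat.prime_iff_prime_int.1 hp).dvd_or_dvd h1 with h2 | h2
        · exact absurd (by exact_mod_cast h2) hpN
        · exact h2)
    (W + 1)
  have hdiv : Tendsto (fun x : ℕ => x / (2 * N)) atTop atTop := by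
    refine tendsto_atTop.2 fun b => ?_
    filter_upwards [eventually_ge_atTop (b * (2 * N))] with x hx
    exact (Nat.le_div_iff_mul_le (by omega)).2 hx
  refine ⟨C + 1, ?_⟩
  filter_upwards [hdiv.eventually hC, sizes N W B0 C A0 hN] with x hx hsz
  obtain ⟨hl1, hl2, hl3, hl4, hl5, hx6⟩ := hsz
  obtain ⟨S, σ, hS2, d, hd1, hd2, hcnt⟩ := hx
  obtain ⟨X, hX⟩ : ∃ X : ℕ, X = x / (2 * N) := ⟨_, rfl⟩
  rw [← hX] at hd2 hcnt
  have hX3 : 3 ≤ X := by
    rw [hX]
    exact (Nat.le_div_iff_mul_le (by omega)).2 (by omega)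
  have hXx : 2 * N * X ≤ x := by rw [hX]; exact Nat.mul_div_le _ _
  have hXle : X ≤ x := by
    refine le_trans ?_ hXx
    exact Nat.le_mul_of_pos_left _ (by omega)
  have hXr : (1 : ℝ) ≤ Real.log X := log_ge_one hX3
  have hX0 : (0 : ℝ) < X := by exact_mod_cast (by omega : 0 < X)
  have hNr : (1 : ℝ) ≤ N := by exact_mod_cast hN
  have hlogle : Real.log X ≤ Real.log x :=
    Real.log_le_log hX0 (by exact_mod_cast hXle)
  have hpowle : Real.log X ^ C ≤ Real.log x ^ C :=
    pow_le_pow_left₀ (by linarith) hlogle _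
  have hpowpos : 0 < Real.log X ^ C := pow_pos (by linarith) _
  have hpowposx : 0 < Real.log x ^ C := pow_pos (by linarith) _
  have hXlow : (x : ℝ) / (4 * N) ≤ X := by
    have h1 : x < 2 * N * (X + 1) := by
      rw [hX]
      exact Nat.lt_mul_div_succ _ (by omega)
    have h2 : (x : ℝ) < 2 * N * (X + 1) := by exact_mod_cast h1
    have h3 : (3 : ℝ) ≤ X := by exact_mod_cast hX3
    rw [div_le_iff₀ (by positivity)]
    nlinarith
  -- the set of the starting points
  unfold cntX at hcnt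
  obtain ⟨Ns, hNs⟩ : ∃ Ns : Finset ℕ, Ns = ((Icc (W + 1 + 1) X).filter (fun n : ℕ => ∀ j < W + 1,
    (∀ f ∈ S.image (fun g => ((N : ℤ), ((a + N * c (g, σ g) : ℕ) : ℤ))),
      (f.1 * ((n + j * d : ℕ) : ℤ) + f.2).toNat.Prime) ∧
    ∀ f ∈ univ.image (fun s : Ub => ((N : ℤ), ((s : ℕ) : ℤ))),
      ¬ (f.1 * ((n + j * d : ℕ) : ℤ) + f.2).toNat.Prime)) := ⟨_, rfl⟩
  rw [← hNs] at hcnt
  have hNpos : 0 < (Ns.card : ℝ) := lt_of_lt_of_le (by positivity) hcnt
  have hNne : Ns.Nonempty := by
    rw [← card_pos]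
    exact_mod_cast hNpos
  have hprime : ∀ n ∈ Ns, ∀ j < W + 1, ∀ g ∈ S, (N * (n + j * d) + a + N * c (g, σ g)).Prime := by
    intro n hn j hj g hg
    rw [hNs, mem_filter] at hn
    have h1 := (hn.2 j hj).1 _ (mem_image_of_mem _ hg)
    have e : ((N : ℤ) * ((n + j * d : ℕ) : ℤ) + ((a + N * c (g, σ g) : ℕ) : ℤ)).toNat =
        N * (n + j * d) + a + N * c (g, σ g) := by
      have : (N : ℤ) * ((n + j * d : ℕ) : ℤ) + ((a + N * c (g, σ g) : ℕ) : ℤ) =
        ((N * (n + j * d) + a + N * c (g, σ g) : ℕ) : ℤ) := by push_cast; ring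
      rw [this, Int.toNat_natCast]
    rw [← e]
    exact h1
  have hblock : ∀ n ∈ Ns, ∀ j < W + 1, ∀ s ∈ Ub, ¬ (N * (n + j * d) + s).Prime := by
    intro n hn j hj s hs
    rw [hNs, mem_filter] at hn
    have h1 := (hn.2 j hj).2 _ (mem_image_of_mem _ (mem_univ (⟨s, hs⟩ : Ub)))
    have e : ((N : ℤ) * ((n + j * d : ℕ) : ℤ) + ((s : ℕ) : ℤ)).toNat = N * (n + j * d) + s := by
      have : (N : ℤ) * ((n + j * d : ℕ) : ℤ) + ((s : ℕ) : ℤ) = ((N * (n + j * d) + s : ℕ) : ℤ) := by
        push_cast; ring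
      rw [this, Int.toNat_natCast]
    rw [← e]
    exact h1
  have hNsI : ∀ n ∈ Ns, W + 2 ≤ n ∧ n ≤ X := by
    intro n hn
    rw [hNs, mem_filter, mem_Icc] at hn
    exact hn.1
  obtain ⟨x0, s, Z, hs1, hsW, hxs, hfib⟩ :=
    href (fun z n => (N * n + a + N * c z).Prime) d Ns hNne
  obtain ⟨Nf, hNf⟩ : ∃ Nf : Finset ℕ, Nf = Ns.filter (fun n => ∀ k ≤ l, ∀ i : Fin T × Fin K,
    ((N * (n + (x0 + k * s) * d) + a + N * c i).Prime ↔ i ∈ Z)) := ⟨_, rfl⟩
  replace hfib : (Ns.card : ℝ) ≤ B0 * (Nf.card : ℝ) := by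
    rw [hNf]
    convert hfib
  have hNfpos : 0 < (Nf.card : ℝ) := by
    by_contra h
    have h1 : (Nf.card : ℝ) = 0 := le_antisymm (not_lt.1 h) (Nat.cast_nonneg _)
    rw [h1, mul_zero] at hfib
    linarith
  obtain ⟨n1, hn1⟩ : Nf.Nonempty := by
    rw [← card_pos]
    exact_mod_cast hNfpos
  have hn1' := hn1
  rw [hNf, mem_filter] at hn1'
  -- two classes
  have htwo : ∃ z ∈ Z, ∃ w ∈ Z, z.1 ≠ w.1 := by
    obtain ⟨g, hg, h, hh, hgh⟩ := one_lt_card.1 (by omega : 1 < S.card)
    have hx0 : x0 < W + 1 := by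
      have : 0 ≤ l * s := Nat.zero_le _
      omega
    refine ⟨(g, σ g), ?_, (h, σ h), ?_, hgh⟩
    · have h1 := (hn1'.2 0 (Nat.zero_le _) (g, σ g)).1
      rw [zero_mul, add_zero] at h1
      exact h1 (hprime n1 hn1'.1 x0 hx0 g hg)
    · have h1 := (hn1'.2 0 (Nat.zero_le _) (h, σ h)).1
      rw [zero_mul, add_zero] at h1
      exact h1 (hprime n1 hn1'.1 x0 hx0 h hh)
  obtain ⟨z, hz, w, hw, hzw, hlt, hadj⟩ := adjacent c hc Z htwo
  refine ⟨z, w, hzw, hlt, N * (s * d), ?_, ?_, ?_⟩
  · exact Nat.succ_le_of_lt (Nat.mul_pos (by omega) (Nat.mul_pos (by omega) (by omega)))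
  · have h1 : (s : ℝ) ≤ W := by exact_mod_cast hsW
    have hs0 : (0 : ℝ) ≤ s := Nat.cast_nonneg _
    have hd0 : (0 : ℝ) ≤ d := Nat.cast_nonneg _
    push_cast
    calc (N : ℝ) * (s * d) ≤ N * (W * Real.log x ^ C) := by
          refine mul_le_mul_of_nonneg_left ?_ (by linarith)
          exact mul_le_mul h1 (hd2.trans hpowle) hd0 (Nat.cast_nonneg _)
      _ = (N * W) * Real.log x ^ C := by ring
      _ ≤ Real.log x * Real.log x ^ C := mul_le_mul_of_nonneg_right hl3 hpowposx.le
      _ = Real.log x ^ (C + 1) := by ring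
  -- the count
  have hcard : Nf.card ≤ cG N a (N * (c w - c z)) l (N * (s * d)) x := by
    unfold cG
    apply card_le_card_of_injOn (fun n : ℕ => N * (n + x0 * d) + a + N * c z)
    · intro n hn
      have hn' := mem_coe.1 hn
      rw [hNf, mem_filter] at hn'
      obtain ⟨hnN, hpat⟩ := hn'
      obtain ⟨hnW, hnX⟩ := hNsI n hnN
      rw [mem_coe, mem_filter, mem_Icc]
      refine ⟨⟨?_, ?_⟩, ?_⟩
      · have : 1 ≤ N * (n + x0 * d) := Nat.succ_le_of_lt (Nat.mul_pos (by omega) (by omega))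
        show 1 ≤ N * (n + x0 * d) + a + N * c z
        omega
      · show N * (n + x0 * d) + a + N * c z ≤ x
        have e1 : ((N * (n + x0 * d) + a + N * c z : ℕ) : ℝ) ≤ x := by
          have e2 : ((a + N * c z : ℕ) : ℝ) ≤ A0 := by exact_mod_cast hcA z
          have e3 : ((2 * N * X : ℕ) : ℝ) ≤ x := by exact_mod_cast hXx
          have e4 : (n : ℝ) ≤ X := by exact_mod_cast hnX
          have e5 : (x0 : ℝ) ≤ W := by
            have : x0 ≤ W := by
              have : 0 ≤ l * s := Nat.zero_le _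
              omega
            exact_mod_cast this
          have e6 : (x0 : ℝ) * d ≤ W * Real.log x ^ C :=
            mul_le_mul e5 (hd2.trans hpowle) (Nat.cast_nonneg _) (Nat.cast_nonneg _)
          push_cast at e2 e3 ⊢
          have e7 : (N : ℝ) * (x0 * d) ≤ N * W * Real.log x ^ C := by
            rw [mul_assoc]
            exact mul_le_mul_of_nonneg_left e6 (by linarith)
          have e8 : (N : ℝ) * n ≤ N * X := mul_le_mul_of_nonneg_left e4 (by linarith)
          nlinarith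
        exact_mod_cast e1
      · intro j hj
        have hjW : x0 + j * s < W + 1 := by
          have : j * s ≤ l * s := Nat.mul_le_mul_right _ hj.le
          omega
        obtain ⟨n', hn'⟩ : ∃ n' : ℕ, n' = n + (x0 + j * s) * d := ⟨_, rfl⟩
        have e : N * (n + x0 * d) + a + N * c z + j * (N * (s * d)) = N * n' + a + N * c z := by
          rw [hn']; ring
        have hpat' : ∀ i : Fin T × Fin K, ((N * n' + a + N * c i).Prime ↔ i ∈ Z) := by
          intro i
          rw [hn']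
          exact hpat j hj.le i
        have hcw : N * n' + a + N * c z + N * (c w - c z) = N * n' + a + N * c w := by
          rw [Nat.mul_sub]
          have : N * c z ≤ N * c w := Nat.mul_le_mul_left _ hlt.le
          omega
        show GapP N a (N * (c w - c z)) (N * (n + x0 * d) + a + N * c z + j * (N * (s * d)))
        rw [e]
        refine ⟨?_, (hpat' z).2 hz, ?_, ?_⟩
        · have : N * n' + a + N * c z = a + N * (n' + c z) := by ring
          rw [this]
          exact (Nat.modEq_iff_dvd' (Nat.le_add_right _ _)).2 (by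
            rw [Nat.add_sub_cancel_left]; exact dvd_mul_right _ _) |>.symm
        · rw [hcw]
          exact (hpat' w).2 hw
        · intro t ht1 ht2 htp
          rw [hcw] at ht2
          obtain ⟨s', hs'⟩ : ∃ s' : ℕ, t = N * n' + s' := ⟨t - N * n', by omega⟩
          have hs'1 : a + N * c z < s' := by omega
          have hs'2 : s' < a + N * c w := by omega
          by_cases hv : ∃ v, s' = a + N * c v
          · obtain ⟨v, hv⟩ := hv
            have h1 : c z < c v := by
              by_contra h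
              have : N * c v ≤ N * c z := Nat.mul_le_mul_left _ (not_lt.1 h)
              omega
            have h2 : c v < c w := by
              by_contra h
              have : N * c w ≤ N * c v := Nat.mul_le_mul_left _ (not_lt.1 h)
              omega
            have h3 : v ∈ Z := (hpat' v).1 (by
              have : N * n' + a + N * c v = t := by omega
              rw [this]; exact htp)
            exact hadj v h3 ⟨h1, h2⟩
          · by_cases hcp : s'.Coprime N
            · have h1 : s' ∈ Ub := by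
                rw [hUb, mem_filter, mem_range]
                refine ⟨?_, hcp, fun z hz => hv ⟨z, hz⟩⟩
                have := hcA w
                omega
              have h2 := hblock n hnN (x0 + j * s) hjW s' h1
              rw [← hn', ← hs'] at h2
              exact h2 htp
            · have h1 : Nat.gcd s' N ∣ t := by
                rw [hs']
                exact dvd_add ((Nat.gcd_dvd_right _ _).mul_right _) (Nat.gcd_dvd_left _ _)
              rcases (Nat.dvd_prime htp).1 h1 with h2 | h2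
              · exact hcp h2
              · have h3 : Nat.gcd s' N ≤ N := Nat.gcd_le_right _ (by omega)
                have h4 : 2 ≤ n' := by
                  rw [hn']
                  omega
                have h5 : N * 2 ≤ N * n' := Nat.mul_le_mul_left _ h4
                omega
    · intro n hn n' hn' h
      have h1 : N * (n + x0 * d) + a + N * c z = N * (n' + x0 * d) + a + N * c z := h
      have h2 : N * (n + x0 * d) = N * (n' + x0 * d) := by omega
      have h3 := Nat.eq_of_mul_eq_mul_left (by omega) h2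
      omega
  have hcard' : (Nf.card : ℝ) ≤ (cG N a (N * (c w - c z)) l (N * (s * d)) x : ℝ) := by
    exact_mod_cast hcard
  refine le_trans ?_ hcard'
  have hB0r : (1 : ℝ) ≤ B0 := by exact_mod_cast hB0
  have h1 : (x : ℝ) / (4 * N * Real.log x ^ C) ≤ B0 * Nf.card := by
    calc (x : ℝ) / (4 * N * Real.log x ^ C) = (x / (4 * N)) / Real.log x ^ C := by
          rw [div_div]
      _ ≤ X / Real.log x ^ C := div_le_div_of_nonneg_right hXlow hpowposx.le
      _ ≤ X / Real.log X ^ C := div_le_div_of_nonneg_left hX0.le hpowpos hpowle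
      _ ≤ Ns.card := hcnt
      _ ≤ _ := hfib
  rw [div_le_iff₀ (by positivity)] at h1
  rw [div_le_iff₀ (by positivity)]
  have h2 : (4 * N * B0 : ℝ) * Real.log x ^ C ≤ Real.log x ^ (C + 1) := by
    rw [pow_succ, mul_comm (Real.log x ^ C)]
    exact mul_le_mul_of_nonneg_right hl2 hpowposx.le
  calc (x : ℝ) ≤ B0 * Nf.card * (4 * N * Real.log x ^ C) := h1
    _ = Nf.card * ((4 * N * B0 : ℝ) * Real.log x ^ C) := by ring
    _ ≤ Nf.card * Real.log x ^ (C + 1) := mul_le_mul_of_nonneg_left h2 (Nat.cast_nonneg _)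

end Pool.Agent.P8H13.AD
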