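import Mathlib

/-!
# Points in general position and Cramer's rule (helper13)
-/

set_option autoImplicit false

namespace Pool.Agent.P8H13.AD

open Finset

/-- the matrix with the rows `(1, e (f a))` -/
def Mf {T k : ℕ} (e : Fin T → Fin k → ℤ) (f : Fin (k + 1) → Fin T) :
    Matrix (Fin (k + 1)) (Fin (k + 1)) ℤ :=
  Matrix.of (fun a => (Fin.cons 1 (e (f a)) : Fin (k + 1) → ℤ))

/-- any `k + 1` of the vectors are affinely independent -/
def GenPos {T k : ℕ} (e : Fin T → Fin k → ℤ) : Prop :=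
  ∀ f : Fin (k + 1) → Fin T, Function.Injective f → (Mf e f).det ≠ 0

/-- the scalar product -/
def dot {k : ℕ} (a b : Fin k → ℤ) : ℤ := ∑ i, a i * b i

theorem lin {T k : ℕ} (e : Fin T → Fin k → ℤ) (he : GenPos e) : ∃ P : ℕ, 0 < P ∧
    ∀ f : Fin (k + 1) → Fin T, Function.Injective f → ∀ ω : Fin (k + 1) → ℤ,
      ∃ (s : ℤ) (v : Fin k → ℤ), ∀ a, s + dot (e (f a)) v = P * ω a := by
  classical
  obtain ⟨P, hP⟩ : ∃ P : ℕ, P = ∏ f ∈ (univ : Finset (Fin (k + 1) → Fin T)).filter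
    (fun f => Function.Injective f), ((Mf e f).det).natAbs := ⟨_, rfl⟩
  refine ⟨P, ?_, fun f hf ω => ?_⟩
  · rw [hP]
    refine prod_pos fun f hf => ?_
    exact Int.natAbs_pos.2 (he f (mem_filter.1 hf).2)
  · have hdvd : (Mf e f).det ∣ (P : ℤ) := by
      rw [← Int.natAbs_dvd_natAbs, Int.natAbs_natCast, hP]
      exact dvd_prod_of_mem (fun f : Fin (k + 1) → Fin T => ((Mf e f).det).natAbs)
        (mem_filter.2 ⟨mem_univ f, hf⟩)
    obtain ⟨t, ht⟩ := hdvd
    obtain ⟨y, hy⟩ : ∃ y : Fin (k + 1) → ℤ, y = (Mf e f).adjugate.mulVec ω := ⟨_, rfl⟩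
    have h1 : (Mf e f).mulVec y = (Mf e f).det • ω := by
      rw [hy, Matrix.mulVec_mulVec, Matrix.mul_adjugate, Matrix.smul_mulVec, Matrix.one_mulVec]
    refine ⟨t * y 0, fun i => t * y i.succ, fun a => ?_⟩
    have h2 : ∑ j, (Mf e f) a j * y j = ((Mf e f).det • ω) a := congrFun h1 a
    rw [Fin.sum_univ_succ] at h2
    have h3 : (Mf e f) a 0 = 1 := by
      unfold Mf
      simp
    have h4 : ∀ i : Fin k, (Mf e f) a i.succ = e (f a) i := by
      intro i
      unfold Mf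
      simp
    rw [h3] at h2
    simp only [h4, Pi.smul_apply, smul_eq_mul] at h2
    unfold dot
    rw [ht]
    have h5 : ∑ i, e (f a) i * (t * y i.succ) = t * ∑ i, e (f a) i * y i.succ := by
      rw [mul_sum]
      refine sum_congr rfl fun i _ => ?_
      ring
    rw [h5]
    linear_combination t * h2

end Pool.Agent.P8H13.AD
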