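import Mathlib
import Pool.Agent.Y877.Comb

/-!
# Homothetic copies in dense sets of vectors, uniformly in the shape (helper13)

From the density Hales-Jewett theorem of the starting files (`Pool.Agent.H602R3.DHJ`).
-/

set_option autoImplicit false

namespace Pool.Agent.P8H13.AD

open Finset Pool.Agent.H602R3.DHJ Pool.Agent.Y877

/-- the box `(u, u + H]^k` -/
noncomputable def box {k : ℕ} (u : Fin k → ℤ) (H : ℕ) : Finset (Fin k → ℤ) :=
  Fintype.piFinset (fun i => Ioc (u i) (u i + H))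

theorem box_card {k : ℕ} (u : Fin k → ℤ) (H : ℕ) : (box u H).card = H ^ k := by
  unfold box
  rw [Fintype.card_piFinset]
  simp

open Classical in
theorem mszk (k : ℕ) (α : Type) [Fintype α] [Nonempty α] (ε : ℝ) (hε : 0 < ε) : ∃ n : ℕ, 1 ≤ n ∧
    ∀ (v : α → Fin k → ℤ) (W : ℕ), (∀ a i, |v a i| ≤ W) →
    ∀ H : ℕ, 2 * n * W ≤ H → 1 ≤ H → ∀ (u : Fin k → ℤ) (B : Finset (Fin k → ℤ)), B ⊆ box u H →
    ε * (H : ℝ) ^ k ≤ B.card →
    ∃ (x : Fin k → ℤ) (l : ℕ), 1 ≤ l ∧ l ≤ n ∧ ∀ a, (fun i => x i + l * v a i) ∈ B := by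
  obtain ⟨N, hN⟩ := dhjT α (ε / 2 ^ k) (by positivity)
  refine ⟨N + 1, by omega, fun v W hv H hH hH1 u B hB hBc => ?_⟩
  obtain ⟨sh, hsh⟩ : ∃ sh : (Fin N → α) → Fin k → ℤ, sh = fun w i => ∑ j, v (w j) i := ⟨_, rfl⟩
  have hshb : ∀ w i, |sh w i| ≤ ((N * W : ℕ) : ℤ) := by
    intro w i
    rw [hsh]
    have h2 : |∑ j, v (w j) i| ≤ ∑ j, |v (w j) i| := abs_sum_le_sum_abs _ _
    have h3 : ∑ j, |v (w j) i| ≤ ∑ _j : Fin N, (W : ℤ) := sum_le_sum fun j _ => hv _ _
    rw [sum_const, card_univ, Fintype.card_fin, nsmul_eq_mul] at h3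
    push_cast
    exact h2.trans h3
  obtain ⟨Z, hZ⟩ : ∃ Z : Finset (Fin k → ℤ), Z = box (fun i => u i - ((N * W : ℕ) : ℤ)) (H + 2 * (N * W)) :=
    ⟨_, rfl⟩
  have hZc : (Z.card : ℝ) ≤ 2 ^ k * (H : ℝ) ^ k := by
    rw [hZ, box_card, ← mul_pow]
    push_cast
    refine pow_le_pow_left₀ (by positivity) ?_ _
    have h1 : 2 * (N * W) ≤ H := by
      refine le_trans ?_ hH
      nlinarith
    have h2 : (2 : ℝ) * (N * W) ≤ H := by exact_mod_cast h1
    linarith
  have hcnt : ∀ w, (B.card : ℝ) ≤ ∑ z ∈ Z, (if (fun i => z i + sh w i) ∈ B then (1 : ℝ) else 0) := by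
    intro w
    rw [← sum_filter, sum_const, nsmul_eq_mul, mul_one, Nat.cast_le]
    apply card_le_card_of_injOn (fun b : Fin k → ℤ => fun i => b i - sh w i)
    · intro b hb
      have hb1 := hB (mem_coe.1 hb)
      unfold box at hb1
      rw [Fintype.mem_piFinset] at hb1
      rw [mem_coe, mem_filter, hZ]
      refine ⟨?_, ?_⟩
      · unfold box
        rw [Fintype.mem_piFinset]
        intro i
        have h1 := mem_Ioc.1 (hb1 i)
        have h2 := abs_le.1 (hshb w i)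
        rw [mem_Ioc]
        push_cast at h2 ⊢
        constructor
        · show u i - N * W < b i - sh w i
          linarith [h1.1, h2.2]
        · show b i - sh w i ≤ u i - N * W + (H + 2 * (N * W))
          linarith [h1.2, h2.1]
      · have : (fun i => (fun i => b i - sh w i) i + sh w i) = b := by
          funext i
          show b i - sh w i + sh w i = b i
          ring
        rw [this]
        exact mem_coe.1 hb
    · intro b _ b' _ h
      funext i
      have h1 : b i - sh w i = b' i - sh w i := congrFun h i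
      linarith
  obtain ⟨Wz, hWz⟩ : ∃ Wz : (Fin k → ℤ) → Set (Fin N → α), Wz = fun z => {w | (fun i => z i + sh w i) ∈ B} :=
    ⟨_, rfl⟩
  have hTpos : (0 : ℝ) < Fintype.card (Fin N → α) := by exact_mod_cast Fintype.card_pos
  have hdn : ∀ z, dn (Wz z) = (∑ w, (if (fun i => z i + sh w i) ∈ B then (1 : ℝ) else 0)) /
      Fintype.card (Fin N → α) := by
    intro z
    unfold dn av
    congr 1
    refine sum_congr rfl fun w _ => ?_
    rw [Set.indicator_apply]
    exact if_congr (by rw [hWz]; exact Iff.rfl) rfl rfl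
  have hsum : ε * (H : ℝ) ^ k ≤ ∑ z ∈ Z, dn (Wz z) := by
    simp_rw [hdn]
    rw [← sum_div, sum_comm, le_div_iff₀ hTpos]
    have h1 : ∑ _w : Fin N → α, (B.card : ℝ) ≤
        ∑ w, ∑ z ∈ Z, (if (fun i => z i + sh w i) ∈ B then (1 : ℝ) else 0) :=
      sum_le_sum fun w _ => hcnt w
    rw [sum_const, card_univ, nsmul_eq_mul] at h1
    calc ε * (H : ℝ) ^ k * (Fintype.card (Fin N → α) : ℝ)
        ≤ B.card * (Fintype.card (Fin N → α) : ℝ) := mul_le_mul_of_nonneg_right hBc hTpos.le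
      _ = (Fintype.card (Fin N → α) : ℝ) * B.card := mul_comm _ _
      _ ≤ _ := h1
  have hHr : (0 : ℝ) < H := by exact_mod_cast hH1
  have hZne : Z.Nonempty := by
    by_contra h
    rw [not_nonempty_iff_eq_empty] at h
    rw [h, sum_empty] at hsum
    have : 0 < ε * (H : ℝ) ^ k := by positivity
    linarith
  obtain ⟨z, hz, hzd⟩ : ∃ z ∈ Z, ε / 2 ^ k ≤ dn (Wz z) := by
    by_contra hcon
    push Not at hcon
    have h1 : ∑ z ∈ Z, dn (Wz z) < ∑ _z ∈ Z, ε / 2 ^ k := sum_lt_sum_of_nonempty hZne hcon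
    rw [sum_const, nsmul_eq_mul] at h1
    have h2 : (Z.card : ℝ) * (ε / 2 ^ k) ≤ 2 ^ k * (H : ℝ) ^ k * (ε / 2 ^ k) :=
      mul_le_mul_of_nonneg_right hZc (by positivity)
    have h3 : (2 : ℝ) ^ k * (H : ℝ) ^ k * (ε / 2 ^ k) = ε * (H : ℝ) ^ k := by
      field_simp
    linarith
  have hnl : ¬ LFr (Wz z) := fun hl => absurd (hN _ hl) (not_lt.2 hzd)
  unfold LFr at hnl
  push Not at hnl
  obtain ⟨V, hV, hVW⟩ := hnl
  choose s hs using fun i : Fin k => line_sum V (fun a => v a i)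
  refine ⟨fun i => z i + s i, act V, act_pos V hV, (act_le V).trans (by omega), fun a => ?_⟩
  have h1 := hVW a
  rw [hWz] at h1
  have h2 : (fun i => z i + sh (ap V (fun _ => a)) i) ∈ B := h1
  have h3 : (fun i => z i + sh (ap V (fun _ => a)) i) = fun i => z i + s i + (act V : ℤ) * v a i := by
    funext i
    have h4 := hs i a
    rw [hsh]
    show z i + ∑ j, v (ap V (fun _ => a) j) i = z i + s i + (act V : ℤ) * v a i
    rw [h4]
    ring
  rw [← h3]
  exact h2

end Pool.Agent.P8H13.AD
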