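import Mathlib
import Pool.Agent.P8H13.AD.Szk
import Pool.Agent.P8H13.AD.Lin
import Pool.Agent.N694.NB.Nar

/-!
# Almost all linear images of points in general position (helper13)
-/

set_option autoImplicit false

namespace Pool.Agent.P8H13.AD

open Finset Filter Topology
open Pool.Agent.Y827.HN Pool.Agent.N694.NB

theorem Pa_mono {q : ℕ} {b : ℤ} {R R' : ℕ} {k : ℕ} {d : Fin (k + 1) → ℤ} {J : Finset (Fin (k + 1))} {m : ℕ}
    (hR : R ≤ R') (h : Pa q b R' d J m) : Pa q b R d J m := by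
  refine ⟨h.1, h.2.1, fun p hp hpm => h.2.2 p hp (hpm.trans ?_)⟩
  exact_mod_cast hR

/-- from the patterns of the forms to the patterns of the shifts, at one scale -/
theorem conv {q : ℕ} (hq : 1 ≤ q) {b : ℤ} {k : ℕ} {V : Finset ℤ} (hVq : ∀ x ∈ V, (q : ℤ) ∣ x)
    {y : Fin (k + 1) → ℤ} (hy : ∀ i, y i ∈ V) (hinj : Function.Injective y) {s C N : ℕ} {l R : ℕ}
    (hs : l + R + (y 0).natAbs ≤ s)
    (h : AllP (UR q b V s) s C N (univ.image (fun i => ((q : ℤ), b + y i))))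
    (hgr : ((q * N + ((b + y 0).natAbs + R + q + 1) : ℕ) : ℝ) /
      (Real.log ((q * N + ((b + y 0).natAbs + R + q + 1) : ℕ) : ℝ)) ^ (C + 1) ≤
      (N : ℝ) / (Real.log N) ^ C - ((b + y 0).natAbs + R + q + 1 : ℕ))
    (hNl : (q : ℝ) ≤ Real.log N) (hN3 : 3 ≤ N) (J : Finset (Fin (k + 1))) : ∃ D : ℕ, 1 ≤ D ∧
      (D : ℝ) ≤ (Real.log ((q * N + ((b + y 0).natAbs + R + q + 1) : ℕ) : ℝ)) ^ (C + 1) ∧
      ((q * N + ((b + y 0).natAbs + R + q + 1) : ℕ) : ℝ) /
        (Real.log ((q * N + ((b + y 0).natAbs + R + q + 1) : ℕ) : ℝ)) ^ (C + 1) ≤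
      (cn q b R (Fin.cons 0 (fun j : Fin k => y j.succ - y 0) : Fin (k + 1) → ℤ) J l D
        (q * N + ((b + y 0).natAbs + R + q + 1)) : ℝ) := by
  obtain ⟨d, hd1, hd2, hd3⟩ := trans hq hVq hy hinj hs h J
  generalize hB : (b + y 0).natAbs + R + q + 1 = B at *
  have hNN : N ≤ q * N + B := by nlinarith
  have hN0 : (0 : ℝ) < N := by exact_mod_cast (by omega : 0 < N)
  have hmono : Real.log N ≤ Real.log ((q * N + B : ℕ) : ℝ) :=
    Real.log_le_log hN0 (by exact_mod_cast hNN)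
  have hqR : (1 : ℝ) ≤ q := by exact_mod_cast hq
  refine ⟨q * d, Nat.mul_pos hq hd1, ?_, ?_⟩
  · have h0 : (0 : ℝ) ≤ Real.log ((q * N + B : ℕ) : ℝ) := by linarith
    have h1 := hd2.trans (pow_le_pow_left₀ (by linarith) hmono C)
    have h2 := hNl.trans hmono
    rw [pow_succ]
    have e : ((q * d : ℕ) : ℝ) = (d : ℝ) * q := by push_cast; ring
    rw [e]
    exact mul_le_mul h1 h2 (by linarith) (pow_nonneg h0 C)
  · linarith

/-- the differences of a pattern -/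
def dv {T k : ℕ} (e : Fin T → Fin k → ℤ) (q : ℕ) (κ : Fin k → ℤ) (f : Fin (k + 1) → Fin T) : Fin k → ℤ :=
  fun j => q * (dot (e (f j.succ)) κ - dot (e (f 0)) κ)

/-- the prime pattern of the values at `κ` of the vectors with indices `f` -/
def Rich {T k : ℕ} (e : Fin T → Fin k → ℤ) (q : ℕ) (b : ℤ) (κ : Fin k → ℤ) (f : Fin (k + 1) → Fin T) : Prop :=
  GoodN q b (dv e q κ f)

theorem dot_add {k : ℕ} (a x v : Fin k → ℤ) (l : ℤ) :
    dot a (fun i => x i + l * v i) = dot a x + l * dot a v := by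
  unfold dot
  rw [mul_sum, ← sum_add_distrib]
  refine sum_congr rfl fun i _ => ?_
  ring

/-- an injective tuple through two given indices -/
theorem through {T k : ℕ} (hk : 1 ≤ k) (hT : k + 1 ≤ T) (g h : Fin T) (hgh : g ≠ h) :
    ∃ (f : Fin (k + 1) → Fin T) (a a' : Fin (k + 1)), Function.Injective f ∧ f a = g ∧ f a' = h := by
  classical
  obtain ⟨S, hS1, hS2⟩ := exists_superset_card_eq (s := ({g, h} : Finset (Fin T))) (n := k + 1)
    (by rw [card_pair hgh]; omega) (by rw [Fintype.card_fin]; exact hT)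
  obtain ⟨f, hf⟩ : ∃ f : Fin (k + 1) → Fin T, f = fun i => (S.orderIsoOfFin hS2 i : Fin T) := ⟨_, rfl⟩
  have hg : g ∈ S := hS1 (by simp)
  have hh : h ∈ S := hS1 (by simp)
  refine ⟨f, (S.orderIsoOfFin hS2).symm ⟨g, hg⟩, (S.orderIsoOfFin hS2).symm ⟨h, hh⟩, ?_, ?_, ?_⟩
  · intro i j hij
    rw [hf] at hij
    exact (S.orderIsoOfFin hS2).injective (Subtype.ext hij)
  · rw [hf]; simp
  · rw [hf]; simp

/-- `κ` is exceptional: the numbers `⟨e_g, κ⟩` are different and admissible outside `q`, and no `M + 1` indices are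
such that any `k + 1` of them form a prime pattern -/
def Exc {T k : ℕ} (M : ℕ) (e : Fin T → Fin k → ℤ) (q : ℕ) (b : ℤ) (κ : Fin k → ℤ) : Prop :=
  Function.Injective (fun g => dot (e g) κ) ∧
    (∀ p : ℕ, p.Prime → ¬ p ∣ q → ∃ r : ℤ, ∀ g, ¬ (p : ℤ) ∣ dot (e g) κ + r) ∧
    ¬ ∃ S : Finset (Fin T), M + 1 ≤ S.card ∧ ∀ f : Fin (k + 1) → Fin T, Function.Injective f →
      (∀ i, f i ∈ S) → Rich e q b κ f

open Classical in
/-- the good sets of indices -/
noncomputable def col {T k : ℕ} (e : Fin T → Fin k → ℤ) (q : ℕ) (b : ℤ) (κ : Fin k → ℤ) :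
    Finset (Fin (k + 1) → Fin T) := univ.filter (fun f => Rich e q b κ f)

open Classical in
/-- the exceptional set contains no homothetic copy of a fixed cube on which the good sets of indices are the same -/
theorem genCore (k T M : ℕ) (hk : 1 ≤ k) (hkM : k ≤ M) (hTM : (18 / 5 : ℝ) * M < T)
    (e : Fin T → Fin k → ℤ) (he : GenPos e) : ∃ W : ℕ,
    ∀ (q : ℕ) (b : ℤ), 1 ≤ q → IsCoprime (q : ℤ) b → ∀ (x : Fin k → ℤ) (l : ℕ), 1 ≤ l →
    ∀ G : Finset (Fin (k + 1) → Fin T), ¬ ∀ z : Fin k → ℤ, (∀ i, |z i| ≤ W) →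
      Exc M e q b (fun i => x i + l * z i) ∧ col e q b (fun i => x i + l * z i) = G := by
  have hMT : M < T := by
    have h1 : (M : ℝ) < T := by
      have : (0 : ℝ) ≤ M := Nat.cast_nonneg _
      linarith
    exact_mod_cast h1
  have hT : 1 ≤ T := by omega
  obtain ⟨K, hK, hpat⟩ := patR T M hT hTM
  obtain ⟨P, hP, hlin⟩ := lin e he
  have : Nonempty (Fin T) := ⟨⟨0, hT⟩⟩
  have : Nonempty (Fin K) := ⟨⟨0, hK⟩⟩
  -- the shape
  have hsv : ∀ z : (Fin (k + 1) → Fin T) × (Fin (k + 1) → Fin K), ∃ (s : ℤ) (v : Fin k → ℤ),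
      Function.Injective z.1 → ∀ a, s + dot (e (z.1 a)) v = P * ((z.2 a : ℕ) : ℤ) := by
    intro z
    by_cases hz : Function.Injective z.1
    · obtain ⟨s, v, h⟩ := hlin z.1 hz (fun a => ((z.2 a : ℕ) : ℤ))
      exact ⟨s, v, fun _ => h⟩
    · exact ⟨0, 0, fun h => absurd h hz⟩
  choose s v hsv using hsv
  obtain ⟨vo, hvo⟩ : ∃ vo : Option ((Fin (k + 1) → Fin T) × (Fin (k + 1) → Fin K)) → Fin k → ℤ,
    vo = fun z => z.elim 0 v := ⟨_, rfl⟩
  obtain ⟨W0, hW0⟩ : ∃ W0 : ℕ, W0 = ∑ z, ∑ i, (vo z i).natAbs := ⟨_, rfl⟩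
  have hW0b : ∀ z i, |vo z i| ≤ W0 := by
    intro z i
    have h1 : (vo z i).natAbs ≤ ∑ i, (vo z i).natAbs :=
      single_le_sum (f := fun i => (vo z i).natAbs) (fun _ _ => Nat.zero_le _) (mem_univ i)
    have h2 : ∑ i, (vo z i).natAbs ≤ W0 := by
      rw [hW0]
      exact single_le_sum (f := fun z => ∑ i, (vo z i).natAbs) (fun _ _ => Nat.zero_le _) (mem_univ z)
    rw [← Int.natCast_natAbs]
    exact_mod_cast h1.trans h2
  obtain ⟨Q, hQ⟩ : ∃ Q : ℕ, Q = (T * K).factorial := ⟨_, rfl⟩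
  have hQ1 : 1 ≤ Q := by rw [hQ]; exact Nat.factorial_pos _
  refine ⟨Q * W0, fun q b hq hb x l hl1 G hx' => ?_⟩
  have hx : ∀ z, Exc M e q b (fun i => x i + l * (Q * vo z i)) ∧
      col e q b (fun i => x i + l * (Q * vo z i)) = G := by
    intro z
    refine hx' (fun i => Q * vo z i) (fun i => ?_)
    rw [abs_mul, Nat.abs_cast]
    push_cast
    exact mul_le_mul_of_nonneg_left (hW0b z i) (Nat.cast_nonneg _)
  -- the base point
  have hx0 := hx none
  have hxx : (fun i => x i + (l : ℤ) * (Q * vo none i)) = x := by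
    funext i
    rw [hvo]
    simp
  rw [hxx] at hx0
  obtain ⟨⟨-, hxadm, hxS⟩, hxG⟩ := hx0
  -- the shifts
  obtain ⟨c, hc⟩ : ∃ c : Fin T → Fin K → ℤ, c = fun (g : Fin T) (i : Fin K) => dot (e g) x + l * Q * P * ((i : ℕ) : ℤ) :=
    ⟨_, rfl⟩
  have hcz : ∀ (f : Fin (k + 1) → Fin T) (ι : Fin (k + 1) → Fin K), Function.Injective f →
      ∃ κ : Fin k → ℤ, Exc M e q b κ ∧ col e q b κ = G ∧ ∃ t : ℤ, ∀ a, c (f a) (ι a) = t + dot (e (f a)) κ := by
    intro f ι hf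
    obtain ⟨h2, h3⟩ := hx (some (f, ι))
    refine ⟨_, h2, h3, l * Q * s (f, ι), fun a => ?_⟩
    have h4 := hsv (f, ι) hf a
    have h5 : (fun i => x i + (l : ℤ) * (Q * vo (some (f, ι)) i)) =
        fun i => x i + ((l : ℤ) * Q) * v (f, ι) i := by
      funext i
      rw [hvo]
      show x i + (l : ℤ) * (Q * v (f, ι) i) = _
      ring
    rw [h5, dot_add, hc]
    show dot (e (f a)) x + l * Q * P * ((ι a : ℕ) : ℤ) = _
    have h6 : (P : ℤ) * ((ι a : ℕ) : ℤ) = s (f, ι) + dot (e (f a)) (v (f, ι)) := h4.symm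
    linear_combination ((l : ℤ) * Q) * h6
  have hlQP : ((l : ℤ) * Q * P) ≠ 0 := by positivity
  have hcinj : ∀ g h i j, c g i = c h j → g = h ∧ i = j := by
    intro g h i j hcc
    by_cases hgh : g = h
    · subst hgh
      refine ⟨rfl, ?_⟩
      rw [hc] at hcc
      have h1 : (l : ℤ) * Q * P * ((i : ℕ) : ℤ) = l * Q * P * ((j : ℕ) : ℤ) := add_left_cancel hcc
      have h2 := mul_left_cancel₀ hlQP h1
      exact Fin.ext (by exact_mod_cast h2)
    · exfalso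
      obtain ⟨f, a, a', hf, hfa, hfa'⟩ := through hk (by omega) g h hgh
      have haa : a ≠ a' := by
        intro h1
        exact hgh (by rw [← hfa, ← hfa', h1])
      obtain ⟨κ, hκ, -, t, ht⟩ := hcz f (fun z => if z = a then i else j) hf
      have h1 := ht a
      have h2 := ht a'
      rw [if_pos rfl, hfa] at h1
      rw [if_neg haa.symm, hfa'] at h2
      rw [h1, h2] at hcc
      have h3 : dot (e g) κ = dot (e h) κ := add_left_cancel hcc
      exact hgh (hκ.1 h3)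
  have hqz : (0 : ℤ) < q := by exact_mod_cast hq
  obtain ⟨V, hV⟩ : ∃ V : Finset ℤ, V = univ.image (fun z : Fin T × Fin K => (q : ℤ) * c z.1 z.2) := ⟨_, rfl⟩
  have hVq : ∀ y ∈ V, (q : ℤ) ∣ y := by
    intro y hy
    rw [hV] at hy
    obtain ⟨z, -, rfl⟩ := mem_image.1 hy
    exact dvd_mul_right _ _
  -- the bad tuples
  have hneg : ∀ z : (Fin (k + 1) → Fin T) × (Fin (k + 1) → Fin K), ∃ l R : ℕ, Function.Injective z.1 →
      z.1 ∉ G → ∀ C : ℕ, ∀ᶠ X : ℕ in atTop, ¬ ∀ J : Finset (Fin (k + 1)), ∃ D : ℕ, 1 ≤ D ∧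
        (D : ℝ) ≤ (Real.log X) ^ C ∧ (X : ℝ) / (Real.log X) ^ C ≤
        (cn q b R (Fin.cons 0 (fun j : Fin k => (q : ℤ) * c (z.1 j.succ) (z.2 j.succ) -
          q * c (z.1 0) (z.2 0)) : Fin (k + 1) → ℤ) J l D X : ℝ) := by
    rintro ⟨f, ι⟩
    by_cases hz : Function.Injective f ∧ f ∉ G
    swap
    · exact ⟨0, 0, fun h1 h2 => absurd ⟨h1, h2⟩ hz⟩
    obtain ⟨hf, hfG⟩ := hz
    obtain ⟨κ, hκ, hκG, t, ht⟩ := hcz f ι hf
    have h1 : ¬ Rich e q b κ f := by
      intro h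
      apply hfG
      rw [← hκG]
      exact mem_filter.2 ⟨mem_univ _, h⟩
    have h2 : dv e q κ f = fun j : Fin k => (q : ℤ) * c (f j.succ) (ι j.succ) - q * c (f 0) (ι 0) := by
      funext j
      unfold dv
      rw [ht j.succ, ht 0]
      ring
    unfold Rich GoodN at h1
    rw [h2] at h1
    push Not at h1
    obtain ⟨l', R', h3⟩ := h1
    refine ⟨l', R', fun _ _ C => ?_⟩
    filter_upwards [h3 C] with X hX
    push Not
    exact hX
  choose ll RR hlR using hneg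
  obtain ⟨sm, hsm⟩ : ∃ sm : ℕ, sm = ∑ z, (ll z + RR z) + ∑ y ∈ V, y.natAbs := ⟨_, rfl⟩
  have hsmb : ∀ z, ∀ y ∈ V, ll z + RR z + y.natAbs ≤ sm := by
    intro z y hy
    have h1 : ll z + RR z ≤ ∑ z, (ll z + RR z) :=
      single_le_sum (f := fun z => ll z + RR z) (fun _ _ => Nat.zero_le _) (mem_univ z)
    have h2 : y.natAbs ≤ ∑ y ∈ V, y.natAbs :=
      single_le_sum (f := fun y : ℤ => y.natAbs) (fun _ _ => Nat.zero_le _) hy
    rw [hsm]
    omega
  obtain ⟨C, hC⟩ := hpat (fun g i => ((q : ℤ), b + q * c g i))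
    (by
      intro z w h
      have h1 : b + q * c z.1 z.2 = b + q * c w.1 w.2 := congrArg Prod.snd h
      have h2 : (q : ℤ) * c z.1 z.2 = q * c w.1 w.2 := add_left_cancel h1
      have h3 := mul_left_cancel₀ hqz.ne' h2
      obtain ⟨h4, h5⟩ := hcinj _ _ _ _ h3
      exact Prod.ext h4 h5)
    (fun g i => ⟨hqz, hb.add_mul_left_right (c g i)⟩)
    (by
      intro p hp hpT
      have hpp := Nat.prime_iff_prime_int.1 hp
      by_cases hpq : p ∣ q
      · refine ⟨0, fun g i h => ?_⟩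
        have h1 : (p : ℤ) ∣ (q : ℤ) := by exact_mod_cast hpq
        have h2 : (p : ℤ) ∣ b := by
          have h3 : (p : ℤ) ∣ (q : ℤ) * 0 + (b + q * c g i) := h
          rw [mul_zero, zero_add] at h3
          exact (dvd_add_left (h1.mul_right _)).1 h3
        obtain ⟨s', t', hst⟩ := hb
        have h3 : (p : ℤ) ∣ 1 := hst ▸ dvd_add (h1.mul_left s') (h2.mul_left t')
        exact hpp.not_dvd_one h3
      · obtain ⟨r, hr⟩ := hxadm p hp hpq
        have hpc : IsCoprime (q : ℤ) (p : ℤ) := by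
          rw [Nat.isCoprime_iff_coprime]
          exact ((Nat.Prime.coprime_iff_not_dvd hp).2 hpq).symm
        obtain ⟨s', t', hst⟩ := hpc
        refine ⟨r - s' * b, fun g i h => hr g ?_⟩
        have hpQ : (p : ℤ) ∣ (Q : ℤ) := by
          rw [hQ]
          exact_mod_cast Nat.dvd_factorial hp.pos hpT
        have h0 : (p : ℤ) ∣ (q : ℤ) * (r - s' * b) + (b + q * c g i) := h
        have h1 : (p : ℤ) ∣ (q : ℤ) * (dot (e g) x + r) := by
          have e1 : (q : ℤ) * (dot (e g) x + r) =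
              ((q : ℤ) * (r - s' * b) + (b + q * c g i)) - p * (t' * b) -
                Q * (q * (l * P * ((i : ℕ) : ℤ))) := by
            rw [hc]
            linear_combination b * hst
          rw [e1]
          exact dvd_sub (dvd_sub h0 (dvd_mul_right _ _)) (hpQ.mul_right _)
        rcases hpp.dvd_or_dvd h1 with h2 | h2
        · exact absurd (by exact_mod_cast h2) hpq
        · exact h2)
    (UR q b V sm)
    (by
      intro w hw
      unfold UR at hw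
      obtain ⟨t, ht, rfl⟩ := mem_image.1 hw
      obtain ⟨-, ht2, ht3⟩ := mem_filter.1 ht
      refine ⟨hqz, ht2, fun g i h => ht3 ?_⟩
      have h1 : b + t = b + q * c g i := congrArg Prod.snd h
      have h2 : t = q * c g i := add_left_cancel h1
      rw [h2, hV]
      exact mem_image.2 ⟨(g, i), mem_univ _, rfl⟩)
    sm
  -- the scales
  have hbnd : ∀ z : (Fin (k + 1) → Fin T) × (Fin (k + 1) → Fin K), ∀ᶠ N : ℕ in atTop,
      (Function.Injective z.1 → z.1 ∉ G → ¬ ∀ J : Finset (Fin (k + 1)), ∃ D : ℕ, 1 ≤ D ∧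
        (D : ℝ) ≤ (Real.log ((q * N + ((b + q * c (z.1 0) (z.2 0)).natAbs + RR z + q + 1) : ℕ) : ℝ)) ^ (C + 1) ∧
        ((q * N + ((b + q * c (z.1 0) (z.2 0)).natAbs + RR z + q + 1) : ℕ) : ℝ) /
          (Real.log ((q * N + ((b + q * c (z.1 0) (z.2 0)).natAbs + RR z + q + 1) : ℕ) : ℝ)) ^ (C + 1) ≤
        (cn q b (RR z) (Fin.cons 0 (fun j : Fin k => (q : ℤ) * c (z.1 j.succ) (z.2 j.succ) -
          q * c (z.1 0) (z.2 0)) : Fin (k + 1) → ℤ) J (ll z) D
          (q * N + ((b + q * c (z.1 0) (z.2 0)).natAbs + RR z + q + 1)) : ℝ)) ∧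
      ((q * N + ((b + q * c (z.1 0) (z.2 0)).natAbs + RR z + q + 1) : ℕ) : ℝ) /
        (Real.log ((q * N + ((b + q * c (z.1 0) (z.2 0)).natAbs + RR z + q + 1) : ℕ) : ℝ)) ^ (C + 1) ≤
        (N : ℝ) / (Real.log N) ^ C - ((b + q * c (z.1 0) (z.2 0)).natAbs + RR z + q + 1 : ℕ) := by
    intro z
    refine Filter.Eventually.and ?_ (Pool.Agent.N694.OB.growthA q _ C)
    by_cases hz : Function.Injective z.1 ∧ z.1 ∉ G
    · have htend : Tendsto (fun N : ℕ => q * N + ((b + q * c (z.1 0) (z.2 0)).natAbs + RR z + q + 1))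
          atTop atTop := by
        refine tendsto_atTop_mono (fun N => ?_) tendsto_id
        exact (Nat.le_mul_of_pos_left N hq).trans (Nat.le_add_right _ _)
      filter_upwards [htend.eventually (hlR z hz.1 hz.2 (C + 1))] with N hN _ _
      exact hN
    · exact Eventually.of_forall fun N h1 h2 => absurd ⟨h1, h2⟩ hz
  have hlog : Tendsto (fun N : ℕ => Real.log (N : ℝ)) atTop atTop :=
    Real.tendsto_log_atTop.comp tendsto_natCast_atTop_atTop
  obtain ⟨N, ⟨⟨hN1, hN2⟩, hN3⟩, hN4⟩ := (((hC.and (eventually_all.2 hbnd)).and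
    (hlog.eventually_ge_atTop (q : ℝ))).and (eventually_ge_atTop 3)).exists
  obtain ⟨S, cc, hSc, hAll⟩ := hN1
  -- an injective tuple in `S` which is not rich
  push Not at hxS
  obtain ⟨f, hf, hfS, hfR⟩ := hxS S hSc
  have hfG : f ∉ G := by
    intro h
    rw [← hxG] at h
    exact hfR (mem_filter.1 h).2
  obtain ⟨h1, h2⟩ := hN2 (f, fun a => cc (f a))
  apply h1 hf hfG
  intro J
  obtain ⟨y, hy⟩ : ∃ y : Fin (k + 1) → ℤ, y = fun a => (q : ℤ) * c (f a) (cc (f a)) := ⟨_, rfl⟩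
  have hyV : ∀ a, y a ∈ V := by
    intro a
    rw [hy, hV]
    exact mem_image.2 ⟨(f a, cc (f a)), mem_univ _, rfl⟩
  have hyinj : Function.Injective y := by
    intro a a' haa
    rw [hy] at haa
    have h3 := mul_left_cancel₀ hqz.ne' haa
    exact hf (hcinj _ _ _ _ h3).1
  have hsub : (univ.image (fun i => ((q : ℤ), b + y i))) ⊆
      S.image (fun g => ((q : ℤ), b + q * c g (cc g))) := by
    intro w hw
    obtain ⟨i, -, rfl⟩ := mem_image.1 hw
    refine mem_image.2 ⟨f i, hfS i, ?_⟩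
    rw [hy]
  have h3 := conv hq hVq hyV hyinj (s := sm) (C := C) (N := N) (l := ll (f, fun a => cc (f a)))
    (R := RR (f, fun a => cc (f a))) (hsmb _ _ (hyV 0)) (AllP_anti hsub hAll)
    (by rw [hy]; exact h2) hN3 hN4 J
  rw [hy] at h3
  exact h3

open Classical in
/-- every homothetic copy of a fixed cube contains a vector which is not exceptional -/
theorem genCube (k T M : ℕ) (hk : 1 ≤ k) (hkM : k ≤ M) (hTM : (18 / 5 : ℝ) * M < T)
    (e : Fin T → Fin k → ℤ) (he : GenPos e) : ∃ ℓ : ℕ,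
    ∀ (q : ℕ) (b : ℤ), 1 ≤ q → IsCoprime (q : ℤ) b → ∀ (x : Fin k → ℤ) (d : ℕ), 1 ≤ d →
      ∃ t : Fin k → ℕ, (∀ i, t i < ℓ) ∧ ¬ Exc M e q b (fun i => x i + t i * d) := by
  obtain ⟨W, h⟩ := genCore k T M hk hkM hTM e he
  obtain ⟨Γ, hΓ⟩ : ∃ Γ : ℕ, Γ = Fintype.card (Finset (Fin (k + 1) → Fin T)) := ⟨_, rfl⟩
  have hΓ1 : 0 < Γ := by rw [hΓ]; exact Fintype.card_pos
  have hΓr : (0 : ℝ) < Γ := by exact_mod_cast hΓ1
  obtain ⟨n, hn, hcopy⟩ := mszk k (Fin k → Fin (2 * W + 1)) (1 / Γ) (by positivity)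
  obtain ⟨H, hH⟩ : ∃ H : ℕ, H = 2 * n * (2 * W) + 1 := ⟨_, rfl⟩
  refine ⟨H + 1, fun q b hq hb x d hd => ?_⟩
  by_contra hcon
  push Not at hcon
  have hexc : ∀ κ ∈ box (0 : Fin k → ℤ) H, Exc M e q b (fun i => x i + κ i * d) := by
    intro κ hκ
    unfold box at hκ
    rw [Fintype.mem_piFinset] at hκ
    have h1 := hcon (fun i => (κ i).toNat) (fun i => by
      have h2 := mem_Ioc.1 (hκ i)
      simp only [Pi.zero_apply, zero_add] at h2
      omega)
    have h3 : ∀ i, (((κ i).toNat : ℕ) : ℤ) = κ i := fun i => by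
      have h2 := mem_Ioc.1 (hκ i)
      simp only [Pi.zero_apply, zero_add] at h2
      exact Int.toNat_of_nonneg h2.1.le
    simp only [h3] at h1
    exact h1
  obtain ⟨γ, hγ⟩ : ∃ γ : (Fin k → ℤ) → Finset (Fin (k + 1) → Fin T),
    γ = fun κ => col e q b (fun i => x i + κ i * d) := ⟨_, rfl⟩
  obtain ⟨G, -, hGc⟩ := exists_le_card_fiber_of_nsmul_le_card_of_maps_to
    (s := box (0 : Fin k → ℤ) H) (t := (univ : Finset (Finset (Fin (k + 1) → Fin T)))) (f := γ)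
    (fun _ _ => mem_univ _) ⟨∅, mem_univ _⟩ (b := 1 / Γ * (H : ℝ) ^ k) (by
      rw [nsmul_eq_mul, card_univ, ← hΓ, box_card]
      have e1 : (Γ : ℝ) * (1 / Γ * (H : ℝ) ^ k) = (H : ℝ) ^ k := by field_simp
      rw [e1]
      push_cast
      exact le_rfl)
  obtain ⟨y, l, hl1, -, hy⟩ := hcopy (fun a i => ((a i : ℕ) : ℤ)) (2 * W) (by
      intro a i
      rw [Nat.abs_cast]
      exact_mod_cast Nat.le_of_lt_succ (a i).2) H (by omega) (by omega) 0
    ((box (0 : Fin k → ℤ) H).filter (fun κ => γ κ = G)) (filter_subset _ _) hGc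
  refine h q b hq hb (fun i => x i + (y i + l * W) * d) (l * d) (Nat.mul_pos hl1 hd) G (fun z hz => ?_)
  have hz2 : ∀ i, (((z i + W).toNat : ℕ) : ℤ) = z i + W := fun i => by
    have h1 := abs_le.1 (hz i)
    exact Int.toNat_of_nonneg (by linarith)
  have hlt : ∀ i, (z i + W).toNat < 2 * W + 1 := fun i => by
    have h1 := abs_le.1 (hz i)
    have h2 : (((z i + W).toNat : ℕ) : ℤ) < ((2 * W + 1 : ℕ) : ℤ) := by
      rw [hz2 i]; push_cast; linarith
    exact_mod_cast h2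
  have h1 := hy (fun i => ⟨(z i + W).toNat, hlt i⟩)
  obtain ⟨h2, h3⟩ := mem_filter.1 h1
  have h4 := hexc _ h2
  rw [hγ] at h3
  have e1 : (fun i => x i + (fun i => y i + (l : ℤ) * (((⟨(z i + W).toNat, hlt i⟩ : Fin (2 * W + 1)) : ℕ) : ℤ)) i
      * (d : ℤ)) = fun i => x i + (y i + (l : ℤ) * W) * d + ((l * d : ℕ) : ℤ) * z i := by
    funext i
    show x i + (y i + (l : ℤ) * (((z i + W).toNat : ℕ) : ℤ)) * d = _
    rw [hz2 i]
    push_cast
    ring
  rw [e1] at h4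
  refine ⟨h4, ?_⟩
  have h5 : col e q b (fun i => x i + (fun i => y i + (l : ℤ) *
      (((⟨(z i + W).toNat, hlt i⟩ : Fin (2 * W + 1)) : ℕ) : ℤ)) i * (d : ℤ)) = G := h3
  rw [e1] at h5
  exact h5

open Classical in
theorem gen (k T M : ℕ) (hk : 1 ≤ k) (hkM : k ≤ M) (hTM : (18 / 5 : ℝ) * M < T)
    (e : Fin T → Fin k → ℤ) (he : GenPos e) (ε : ℝ) (hε : 0 < ε) : ∃ L : ℕ,
    ∀ (q : ℕ) (b : ℤ), 1 ≤ q → IsCoprime (q : ℤ) b → ∀ (u : Fin k → ℤ) (H : ℕ), L ≤ H →
    (((box u H).filter (fun κ => Exc M e q b κ)).card : ℝ) ≤ ε * (H : ℝ) ^ k := by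
  obtain ⟨ℓ, h⟩ := genCube k T M hk hkM hTM e he
  obtain ⟨n, hn, hcopy⟩ := mszk k (Fin k → Fin (ℓ + 1)) ε hε
  refine ⟨2 * n * ℓ + 1, fun q b hq hb u H hH => ?_⟩
  by_contra hcon
  rw [not_le] at hcon
  obtain ⟨y, l, hl1, -, hy⟩ := hcopy (fun a i => ((a i : ℕ) : ℤ)) ℓ (by
      intro a i
      rw [Nat.abs_cast]
      exact_mod_cast Nat.le_of_lt_succ (a i).2) H (by omega) (by omega) u
    ((box u H).filter (fun κ => Exc M e q b κ)) (filter_subset _ _) hcon.le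
  obtain ⟨t, ht, hne⟩ := h q b hq hb y l hl1
  apply hne
  have h1 := (mem_filter.1 (hy (fun i => ⟨t i, (ht i).trans (Nat.lt_succ_self ℓ)⟩))).2
  have e1 : (fun i => y i + (l : ℤ) * (((⟨t i, (ht i).trans (Nat.lt_succ_self ℓ)⟩ : Fin (ℓ + 1)) : ℕ) : ℤ)) =
      fun i => y i + (t i : ℤ) * l := by
    funext i
    show y i + (l : ℤ) * (t i : ℤ) = _
    ring
  rw [← e1]
  exact h1

end Pool.Agent.P8H13.AD
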