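import Mathlib
import Pool.Agent.P8H13.AD.Gen

/-!
# A fixed choice of shifts in many classes, all of whose subtuples are prime patterns (helper13)
-/

set_option autoImplicit false

namespace Pool.Agent.P8H13.AD

open Finset Filter Topology
open Pool.Agent.Y827.HN Pool.Agent.N694.NB

open Classical in
theorem pick (T M : ℕ) (hT : 1 ≤ T) (hTM : (18 / 5 : ℝ) * M < T) : ∃ K : ℕ, 1 ≤ K ∧
    ∀ (k q : ℕ) (b : ℤ), 1 ≤ q → IsCoprime (q : ℤ) b → ∀ c : Fin T → Fin K → ℤ,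
    (∀ g h i j, c g i = c h j → g = h ∧ i = j) →
    (∀ p : ℕ, p.Prime → p ≤ T * K → ¬ p ∣ q → ∃ r : ℤ, ∀ g i, ¬ (p : ℤ) ∣ c g i + r) →
    ∃ (S : Finset (Fin T)) (cc : Fin T → Fin K), M + 1 ≤ S.card ∧
      ∀ f : Fin (k + 1) → Fin T, Function.Injective f → (∀ a, f a ∈ S) →
        GoodN q b (fun j : Fin k => (q : ℤ) * c (f j.succ) (cc (f j.succ)) - q * c (f 0) (cc (f 0))) := by
  obtain ⟨K, hK, hpat⟩ := patR T M hT hTM
  refine ⟨K, hK, fun k q b hq hb c hcinj hadm => ?_⟩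
  have : Nonempty (Fin T) := ⟨⟨0, hT⟩⟩
  have : Nonempty (Fin K) := ⟨⟨0, hK⟩⟩
  by_contra hcon
  push Not at hcon
  have hqz : (0 : ℤ) < q := by exact_mod_cast hq
  obtain ⟨V, hV⟩ : ∃ V : Finset ℤ, V = univ.image (fun z : Fin T × Fin K => (q : ℤ) * c z.1 z.2) := ⟨_, rfl⟩
  have hVq : ∀ y ∈ V, (q : ℤ) ∣ y := by
    intro y hy
    rw [hV] at hy
    obtain ⟨z, -, rfl⟩ := mem_image.1 hy
    exact dvd_mul_right _ _
  -- the bad choices
  have hneg : ∀ z : Finset (Fin T) × (Fin T → Fin K), ∃ (f : Fin (k + 1) → Fin T) (l R : ℕ), M + 1 ≤ z.1.card →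
      (Function.Injective f ∧ (∀ a, f a ∈ z.1) ∧
      ∀ C : ℕ, ∀ᶠ X : ℕ in atTop, ¬ ∀ J : Finset (Fin (k + 1)), ∃ D : ℕ, 1 ≤ D ∧
        (D : ℝ) ≤ (Real.log X) ^ C ∧ (X : ℝ) / (Real.log X) ^ C ≤
        (cn q b R (Fin.cons 0 (fun j : Fin k => (q : ℤ) * c (f j.succ) (z.2 (f j.succ)) -
          q * c (f 0) (z.2 (f 0))) : Fin (k + 1) → ℤ) J l D X : ℝ)) := by
    rintro ⟨S, cc⟩
    by_cases hz : M + 1 ≤ S.card
    swap
    · exact ⟨fun _ => Classical.arbitrary _, 0, 0, fun h1 => absurd h1 hz⟩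
    obtain ⟨f, hf, hfS, h1⟩ := hcon S cc hz
    unfold GoodN at h1
    push Not at h1
    obtain ⟨l', R', h3⟩ := h1
    refine ⟨f, l', R', fun _ => ⟨hf, hfS, fun C => ?_⟩⟩
    filter_upwards [h3 C] with X hX
    push Not
    exact hX
  choose ff ll RR hlR using hneg
  obtain ⟨sm, hsm⟩ : ∃ sm : ℕ, sm = ∑ z, (ll z + RR z) + ∑ y ∈ V, y.natAbs := ⟨_, rfl⟩
  have hsmb : ∀ z, ∀ y ∈ V, ll z + RR z + y.natAbs ≤ sm := by
    intro z y hy
    have h1 : ll z + RR z ≤ ∑ z, (ll z + RR z) :=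
      single_le_sum (f := fun z => ll z + RR z) (fun _ _ => Nat.zero_le _) (mem_univ z)
    have h2 : y.natAbs ≤ ∑ y ∈ V, y.natAbs :=
      single_le_sum (f := fun y : ℤ => y.natAbs) (fun _ _ => Nat.zero_le _) hy
    rw [hsm]
    omega
  obtain ⟨C, hC⟩ := hpat (fun g i => ((q : ℤ), b + q * c g i))
    (by
      intro z w h
      have h1 : b + q * c z.1 z.2 = b + q * c w.1 w.2 := congrArg Prod.snd h
      have h2 : (q : ℤ) * c z.1 z.2 = q * c w.1 w.2 := add_left_cancel h1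
      have h3 := mul_left_cancel₀ hqz.ne' h2
      obtain ⟨h4, h5⟩ := hcinj _ _ _ _ h3
      exact Prod.ext h4 h5)
    (fun g i => ⟨hqz, hb.add_mul_left_right (c g i)⟩)
    (by
      intro p hp hpT
      have hpp := Nat.prime_iff_prime_int.1 hp
      by_cases hpq : p ∣ q
      · refine ⟨0, fun g i h => ?_⟩
        have h1 : (p : ℤ) ∣ (q : ℤ) := by exact_mod_cast hpq
        have h2 : (p : ℤ) ∣ b := by
          have h3 : (p : ℤ) ∣ (q : ℤ) * 0 + (b + q * c g i) := h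
          rw [mul_zero, zero_add] at h3
          exact (dvd_add_left (h1.mul_right _)).1 h3
        obtain ⟨s', t', hst⟩ := hb
        have h3 : (p : ℤ) ∣ 1 := hst ▸ dvd_add (h1.mul_left s') (h2.mul_left t')
        exact hpp.not_dvd_one h3
      · obtain ⟨r, hr⟩ := hadm p hp hpT hpq
        have hpc : IsCoprime (q : ℤ) (p : ℤ) := by
          rw [Nat.isCoprime_iff_coprime]
          exact ((Nat.Prime.coprime_iff_not_dvd hp).2 hpq).symm
        obtain ⟨s', t', hst⟩ := hpc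
        refine ⟨r - s' * b, fun g i h => hr g i ?_⟩
        have h0 : (p : ℤ) ∣ (q : ℤ) * (r - s' * b) + (b + q * c g i) := h
        have h1 : (p : ℤ) ∣ (q : ℤ) * (c g i + r) := by
          have e1 : (q : ℤ) * (c g i + r) =
              ((q : ℤ) * (r - s' * b) + (b + q * c g i)) - p * (t' * b) := by
            linear_combination b * hst
          rw [e1]
          exact dvd_sub h0 (dvd_mul_right _ _)
        rcases hpp.dvd_or_dvd h1 with h2 | h2
        · exact absurd (by exact_mod_cast h2) hpq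
        · exact h2)
    (UR q b V sm)
    (by
      intro w hw
      unfold UR at hw
      obtain ⟨t, ht, rfl⟩ := mem_image.1 hw
      obtain ⟨-, ht2, ht3⟩ := mem_filter.1 ht
      refine ⟨hqz, ht2, fun g i h => ht3 ?_⟩
      have h1 : b + t = b + q * c g i := congrArg Prod.snd h
      have h2 : t = q * c g i := add_left_cancel h1
      rw [h2, hV]
      exact mem_image.2 ⟨(g, i), mem_univ _, rfl⟩)
    sm
  -- the scales
  have hbnd : ∀ z : Finset (Fin T) × (Fin T → Fin K), ∀ᶠ N : ℕ in atTop,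
      (M + 1 ≤ z.1.card → ¬ ∀ J : Finset (Fin (k + 1)), ∃ D : ℕ, 1 ≤ D ∧
        (D : ℝ) ≤ (Real.log ((q * N + ((b + q * c (ff z 0) (z.2 (ff z 0))).natAbs + RR z + q + 1) : ℕ) : ℝ)) ^
          (C + 1) ∧
        ((q * N + ((b + q * c (ff z 0) (z.2 (ff z 0))).natAbs + RR z + q + 1) : ℕ) : ℝ) /
          (Real.log ((q * N + ((b + q * c (ff z 0) (z.2 (ff z 0))).natAbs + RR z + q + 1) : ℕ) : ℝ)) ^ (C + 1) ≤
        (cn q b (RR z) (Fin.cons 0 (fun j : Fin k => (q : ℤ) * c (ff z j.succ) (z.2 (ff z j.succ)) -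
          q * c (ff z 0) (z.2 (ff z 0))) : Fin (k + 1) → ℤ) J (ll z) D
          (q * N + ((b + q * c (ff z 0) (z.2 (ff z 0))).natAbs + RR z + q + 1)) : ℝ)) ∧
      ((q * N + ((b + q * c (ff z 0) (z.2 (ff z 0))).natAbs + RR z + q + 1) : ℕ) : ℝ) /
        (Real.log ((q * N + ((b + q * c (ff z 0) (z.2 (ff z 0))).natAbs + RR z + q + 1) : ℕ) : ℝ)) ^ (C + 1) ≤
        (N : ℝ) / (Real.log N) ^ C - ((b + q * c (ff z 0) (z.2 (ff z 0))).natAbs + RR z + q + 1 : ℕ) := by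
    intro z
    refine Filter.Eventually.and ?_ (Pool.Agent.N694.OB.growthA q _ C)
    by_cases hz : M + 1 ≤ z.1.card
    · have htend : Tendsto (fun N : ℕ => q * N + ((b + q * c (ff z 0) (z.2 (ff z 0))).natAbs + RR z + q + 1))
          atTop atTop := by
        refine tendsto_atTop_mono (fun N => ?_) tendsto_id
        exact (Nat.le_mul_of_pos_left N hq).trans (Nat.le_add_right _ _)
      filter_upwards [htend.eventually ((hlR z hz).2.2 (C + 1))] with N hN _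
      exact hN
    · exact Eventually.of_forall fun N h1 => absurd h1 hz
  have hlog : Tendsto (fun N : ℕ => Real.log (N : ℝ)) atTop atTop :=
    Real.tendsto_log_atTop.comp tendsto_natCast_atTop_atTop
  obtain ⟨N, ⟨⟨hN1, hN2⟩, hN3⟩, hN4⟩ := (((hC.and (eventually_all.2 hbnd)).and
    (hlog.eventually_ge_atTop (q : ℝ))).and (eventually_ge_atTop 3)).exists
  obtain ⟨S, cc, hSc, hAll⟩ := hN1
  obtain ⟨h1, h2⟩ := hN2 (S, cc)
  obtain ⟨hf, hfS, -⟩ := hlR (S, cc) hSc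
  apply h1 hSc
  intro J
  obtain ⟨f, hff⟩ : ∃ f, f = ff (S, cc) := ⟨_, rfl⟩
  rw [← hff] at hf hfS h2 ⊢
  obtain ⟨y, hy⟩ : ∃ y : Fin (k + 1) → ℤ, y = fun a => (q : ℤ) * c (f a) (cc (f a)) := ⟨_, rfl⟩
  have hyV : ∀ a, y a ∈ V := by
    intro a
    rw [hy, hV]
    exact mem_image.2 ⟨(f a, cc (f a)), mem_univ _, rfl⟩
  have hyinj : Function.Injective y := by
    intro a a' haa
    rw [hy] at haa
    have h3 := mul_left_cancel₀ hqz.ne' haa
    exact hf (hcinj _ _ _ _ h3).1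
  have hsub : (univ.image (fun i => ((q : ℤ), b + y i))) ⊆
      S.image (fun g => ((q : ℤ), b + q * c g (cc g))) := by
    intro w hw
    obtain ⟨i, -, rfl⟩ := mem_image.1 hw
    refine mem_image.2 ⟨f i, hfS i, ?_⟩
    rw [hy]
  have h3 := conv hq hVq hyV hyinj (s := sm) (C := C) (N := N) (l := ll (S, cc))
    (R := RR (S, cc)) (hsmb _ _ (hyV 0)) (AllP_anti hsub hAll)
    (by rw [hy]; exact h2) hN3 hN4 J
  rw [hy] at h3
  exact h3

end Pool.Agent.P8H13.AD
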