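import Mathlib
import Pool.Agent.P8H13.AD.Pick
import Pool.Agent.P8H13.AD.Cnt
import Pool.Agent.Y863.AA.Msz

/-!
# Dilates which extend to prime patterns with many further shifts (helper13)
-/

set_option autoImplicit false

namespace Pool.Agent.P8H13.AD

open Finset Filter Topology
open Pool.Agent.Y827.HN Pool.Agent.N694.NB

/-- the vectors of `J` further shifts, at most `H`, with which `d` forms a prime pattern -/
def ExtSet (q : ℕ) (b : ℤ) (J H : ℕ) (d : ℤ) : Set (Fin J → ℤ) :=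
  {t | (∀ s, |t s| ≤ H) ∧ GoodN q b (fun j : Fin (J + 1) => (q : ℤ) * (Fin.cons d t : Fin (J + 1) → ℤ) j)}

theorem ExtSet_finite (q : ℕ) (b : ℤ) (J H : ℕ) (d : ℤ) : (ExtSet q b J H d).Finite := by
  classical
  refine (Fintype.piFinset (fun _ : Fin J => Icc (-(H : ℤ)) H)).finite_toSet.subset ?_
  intro t ht
  rw [mem_coe, Fintype.mem_piFinset]
  intro s
  rw [mem_Icc]
  exact abs_le.1 (ht.1 s)

/-- one of the differences, multiplied by `k`, has many extensions -/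
def ExtGood (m : Fin 4 → ℕ) (q : ℕ) (b : ℤ) (β J H : ℕ) (δ : ℝ) (k : ℕ) : Prop :=
  ∃ i j, m i < m j ∧ δ * (H : ℝ) ^ J ≤ ((ExtSet q b J H ((β * ((m j - m i) * k) : ℕ) : ℤ)).ncard : ℝ)

open Classical in
theorem extCore (m : Fin 4 → ℕ) (hm : Function.Injective m) (J : ℕ) : ∃ (W L : ℕ) (δ : ℝ), 1 ≤ W ∧ 0 < δ ∧
    ∀ (q : ℕ) (b : ℤ), 1 ≤ q → IsCoprime (q : ℤ) b → ∀ β : ℕ, 1 ≤ β →
    (∀ p : ℕ, p.Prime → ¬ p ∣ q → ∃ r : ℤ, ∀ i, ¬ (p : ℤ) ∣ β * m i + r) →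
    ∀ (x : ℤ) (l : ℕ), 1 ≤ l → ∀ X H : ℕ, L * (β * X) ≤ H →
    ¬ ∀ z : ℤ, |z| ≤ W → ∃ k : ℕ, (0 < k ∧ k ≤ X ∧ ¬ ExtGood m q b β J H δ k) ∧ x + l * z = (k : ℤ) := by
  obtain ⟨R, hR⟩ : ∃ R : ℕ, R = 4 * (J + 1) := ⟨_, rfl⟩
  have hR1 : 1 ≤ R := by omega
  obtain ⟨K, hK, hpick⟩ := pick (R * 4) R (by omega) (by
    have h1 : (1 : ℝ) ≤ R := by exact_mod_cast hR1
    push_cast
    linarith)
  have : Nonempty (Fin K) := ⟨⟨0, hK⟩⟩
  obtain ⟨P, hP⟩ : ∃ P : ℕ, P = ∏ x ∈ (univ : Finset (Fin 4 × Fin 4)).filter (fun x => x.1 ≠ x.2),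
    ((m x.2 : ℤ) - m x.1).natAbs := ⟨_, rfl⟩
  have hmne : ∀ g h : Fin 4, g ≠ h → (m h : ℤ) - m g ≠ 0 := by
    intro g h hgh h0
    have h1 : (m h : ℤ) = m g := by linarith
    exact hgh (hm (by exact_mod_cast h1.symm))
  have hPpos : 0 < P := by
    rw [hP]
    refine prod_pos fun x hx => ?_
    exact Int.natAbs_pos.2 (hmne _ _ (mem_filter.1 hx).2)
  have hPdvd : ∀ g h : Fin 4, g ≠ h → ((m h : ℤ) - m g) ∣ (P : ℤ) := by
    intro g h hgh
    rw [← Int.natAbs_dvd_natAbs, Int.natAbs_natCast, hP]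
    exact dvd_prod_of_mem (fun x : Fin 4 × Fin 4 => ((m x.2 : ℤ) - m x.1).natAbs)
      (mem_filter.2 ⟨mem_univ (g, h), hgh⟩)
  obtain ⟨v, hv⟩ : ∃ v : (Fin 4 × Fin K) × (Fin 4 × Fin K) → ℤ, v = fun z =>
    if z.1.1 = z.2.1 then 0 else (P : ℤ) / ((m z.2.1 : ℤ) - m z.1.1) *
      (((z.2.2 : ℕ) : ℤ) - ((z.1.2 : ℕ) : ℤ)) := ⟨_, rfl⟩
  have hvb : ∀ z, |v z| ≤ ((P * K : ℕ) : ℤ) := by
    intro z
    rw [hv]
    simp only
    split_ifs with hz
    · rw [abs_zero]; exact Nat.cast_nonneg _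
    · rw [abs_mul]
      have h1 : |(P : ℤ) / ((m z.2.1 : ℤ) - m z.1.1)| ≤ P := by
        obtain ⟨t, ht⟩ := hPdvd _ _ hz
        have h2 := hmne _ _ hz
        have h0 : (P : ℤ) / ((m z.2.1 : ℤ) - m z.1.1) = t := by
          rw [ht, Int.mul_ediv_cancel_left _ h2]
        rw [h0]
        have h3 : 1 ≤ |(m z.2.1 : ℤ) - m z.1.1| := Int.one_le_abs h2
        have h4 : (P : ℤ) = |(m z.2.1 : ℤ) - m z.1.1| * |t| := by
          rw [← abs_mul, ← ht, abs_of_nonneg (Nat.cast_nonneg _)]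
        nlinarith [abs_nonneg t]
      have h2 : |((z.2.2 : ℕ) : ℤ) - ((z.1.2 : ℕ) : ℤ)| ≤ K := by
        have a1 : ((z.2.2 : ℕ) : ℤ) ≤ K := by exact_mod_cast z.2.2.2.le
        have a2 : (0 : ℤ) ≤ ((z.2.2 : ℕ) : ℤ) := Nat.cast_nonneg _
        have a3 : ((z.1.2 : ℕ) : ℤ) ≤ K := by exact_mod_cast z.1.2.2.le
        have a4 : (0 : ℤ) ≤ ((z.1.2 : ℕ) : ℤ) := Nat.cast_nonneg _
        rw [abs_le]
        constructor <;> linarith
      push_cast
      exact mul_le_mul h1 h2 (abs_nonneg _) (Nat.cast_nonneg _)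
  obtain ⟨Q, hQ⟩ : ∃ Q : ℕ, Q = (R * 4 * K).factorial := ⟨_, rfl⟩
  have hQ1 : 1 ≤ Q := by rw [hQ]; exact Nat.factorial_pos _
  obtain ⟨A, hA⟩ : ∃ A : ℕ, A = ∑ g, m g := ⟨_, rfl⟩
  have hmA : ∀ g, m g ≤ A := fun g => by
    rw [hA]; exact single_le_sum (f := m) (fun _ _ => Nat.zero_le _) (mem_univ g)
  obtain ⟨B1, hB1⟩ : ∃ B1 : ℕ, B1 = A + Q * P * K := ⟨_, rfl⟩
  obtain ⟨Om, hOm⟩ : ∃ Om : ℕ, Om = Fintype.card (Fin R × (Fin 4 × Fin 4) × (Fin K × Fin K) ×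
    (Fin J → Fin R) × (Fin J → Fin 4) × (Fin J → Fin K)) := ⟨_, rfl⟩
  have : Nonempty (Fin R) := ⟨⟨0, hR1⟩⟩
  have hOm1 : 0 < Om := by rw [hOm]; exact Fintype.card_pos
  have hOmr : (0 : ℝ) < Om := by exact_mod_cast hOm1
  have hQr : (1 : ℝ) ≤ Q := by exact_mod_cast hQ1
  obtain ⟨L, hL⟩ : ∃ L : ℕ, L = 4 * Q * (2 * R ^ 2 * (2 * B1 + 1) + 1) + 2 * B1 := ⟨_, rfl⟩
  obtain ⟨δ, hδ⟩ : ∃ δ : ℝ, δ = 1 / (4 * Om * (4 * Q) ^ J) := ⟨_, rfl⟩
  have hδ0 : 0 < δ := by rw [hδ]; positivity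
  refine ⟨Q * (P * K), L, δ, Nat.mul_pos hQ1 (Nat.mul_pos hPpos hK), hδ0, ?_⟩
  intro q b hq hb β hβ hadm x l hl1 X H hH hx
  have hqz : (0 : ℤ) < q := by exact_mod_cast hq
  have hbad : ∀ z, ∃ k : ℕ, (0 < k ∧ k ≤ X ∧ ¬ ExtGood m q b β J H δ k) ∧ x + l * (Q * v z) = (k : ℤ) := by
    intro z
    refine hx (Q * v z) ?_
    rw [abs_mul, Nat.abs_cast]
    have h1 := mul_le_mul_of_nonneg_left (hvb z) (Nat.cast_nonneg (α := ℤ) Q)
    push_cast at h1 ⊢
    exact h1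
  -- the size of `l`
  have hWpos : 1 ≤ Q * (P * K) := Nat.mul_pos hQ1 (Nat.mul_pos hPpos hK)
  have hlX : l ≤ X := by
    obtain ⟨k1, ⟨-, hk1, -⟩, h1⟩ := hx ((Q * (P * K) : ℕ) : ℤ) (by rw [Nat.abs_cast])
    obtain ⟨k2, ⟨hk2, -, -⟩, h2⟩ := hx (-((Q * (P * K) : ℕ) : ℤ)) (by rw [abs_neg, Nat.abs_cast])
    have h3 : (l : ℤ) ≤ l * ((Q * (P * K) : ℕ) : ℤ) := by
      have h4 : (1 : ℤ) ≤ ((Q * (P * K) : ℕ) : ℤ) := by exact_mod_cast hWpos
      nlinarith [Nat.cast_nonneg (α := ℤ) l]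
    have h5 : (k1 : ℤ) ≤ X := by exact_mod_cast hk1
    have h6 : (0 : ℤ) < k2 := by exact_mod_cast hk2
    have h7 : (l : ℤ) ≤ X := by nlinarith
    exact_mod_cast h7
  -- the base point
  obtain ⟨k0, ⟨hk0, hk0X, -⟩, hxk⟩ := hbad ((0, Classical.arbitrary _), (0, Classical.arbitrary _))
  have hv0 : v ((0, Classical.arbitrary (Fin K)), (0, Classical.arbitrary (Fin K))) = 0 := by
    rw [hv]; simp
  rw [hv0, mul_zero, mul_zero, add_zero] at hxk
  obtain ⟨c, hc⟩ : ∃ c : Fin 4 × Fin K → ℕ, c = fun z =>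
    β * m z.1 * k0 + β * l * Q * P * (z.2 : ℕ) := ⟨_, rfl⟩
  obtain ⟨Cm, hCm⟩ : ∃ Cm : ℕ, Cm = β * X * B1 := ⟨_, rfl⟩
  have hcC : ∀ z, c z ≤ Cm := by
    intro z
    rw [hc, hCm, hB1]
    calc β * m z.1 * k0 + β * l * Q * P * (z.2 : ℕ) ≤ β * A * X + β * X * Q * P * K := by
          apply add_le_add
          · exact Nat.mul_le_mul (Nat.mul_le_mul_left _ (hmA _)) hk0X
          · exact Nat.mul_le_mul (Nat.mul_le_mul_right _ (Nat.mul_le_mul_right _ (Nat.mul_le_mul_left _ hlX)))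
              z.2.2.le
      _ = β * X * (A + Q * P * K) := by ring
  have hdiff : ∀ z w : Fin 4 × Fin K, z.1 ≠ w.1 → ∃ k : ℕ, (0 < k ∧ k ≤ X ∧ ¬ ExtGood m q b β J H δ k) ∧
      (c w : ℤ) - c z = β * (((m w.1 : ℤ) - m z.1) * k) := by
    intro z w hzw
    obtain ⟨k, hk, h1⟩ := hbad (z, w)
    refine ⟨k, hk, ?_⟩
    rw [← h1, hv, hc]
    simp only [if_neg hzw]
    obtain ⟨t, ht⟩ := hPdvd _ _ hzw
    have h2 := hmne _ _ hzw
    have h3 : (P : ℤ) / ((m w.1 : ℤ) - m z.1) = t := by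
      rw [ht, Int.mul_ediv_cancel_left _ h2]
    rw [h3, hxk]
    push_cast
    rw [ht]
    ring
  have hcinj : Function.Injective c := by
    intro z w h
    by_cases hzw : z.1 = w.1
    · have h1 : β * m z.1 * k0 + β * l * Q * P * (z.2 : ℕ) =
          β * m w.1 * k0 + β * l * Q * P * (w.2 : ℕ) := by
        rw [hc] at h; exact h
      rw [hzw] at h1
      have h2 : β * l * Q * P * (z.2 : ℕ) = β * l * Q * P * (w.2 : ℕ) := by omega
      have h3 : 0 < β * l * Q * P := by positivity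
      have h4 := Nat.eq_of_mul_eq_mul_left h3 h2
      exact Prod.ext hzw (Fin.ext h4)
    · exfalso
      obtain ⟨k, hk, h1⟩ := hdiff z w hzw
      rw [h, sub_self] at h1
      have h2 := hmne _ _ hzw
      have h3 : (k : ℤ) ≠ 0 := by
        have := hk.1
        exact_mod_cast this.ne'
      have h4 : (β : ℤ) ≠ 0 := by exact_mod_cast (by omega : β ≠ 0)
      exact (mul_ne_zero h4 (mul_ne_zero h2 h3)) h1.symm
  -- the layers
  obtain ⟨Y, hY⟩ : ∃ Y : ℕ, Y = H / (2 * Q) := ⟨_, rfl⟩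
  have hβX : 1 ≤ β * X := Nat.mul_pos hβ (by omega)
  have hHL : 4 * Q * (2 * R ^ 2 * (2 * Cm + 1) + 1) + 2 * Cm ≤ H := by
    refine le_trans ?_ hH
    rw [hL, hCm]
    have h1 : 2 * (β * X * B1) + 1 ≤ (2 * B1 + 1) * (β * X) := by nlinarith
    have h2 : 2 * R ^ 2 * (2 * (β * X * B1) + 1) + 1 ≤ (2 * R ^ 2 * (2 * B1 + 1) + 1) * (β * X) := by
      calc 2 * R ^ 2 * (2 * (β * X * B1) + 1) + 1 ≤ 2 * R ^ 2 * ((2 * B1 + 1) * (β * X)) + β * X :=
            add_le_add (Nat.mul_le_mul_left _ h1) hβX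
        _ = _ := by ring
    calc 4 * Q * (2 * R ^ 2 * (2 * (β * X * B1) + 1) + 1) + 2 * (β * X * B1) ≤
          4 * Q * ((2 * R ^ 2 * (2 * B1 + 1) + 1) * (β * X)) + 2 * (β * X * B1) :=
          Nat.add_le_add_right (Nat.mul_le_mul_left _ h2) _
      _ = (4 * Q * (2 * R ^ 2 * (2 * B1 + 1) + 1) + 2 * B1) * (β * X) := by ring
  have hY1 : 2 * R ^ 2 * (2 * Cm + 1) + 1 ≤ Y := by
    rw [hY, Nat.le_div_iff_mul_le (by omega)]
    calc (2 * R ^ 2 * (2 * Cm + 1) + 1) * (2 * Q) ≤ 4 * Q * (2 * R ^ 2 * (2 * Cm + 1) + 1) := by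
          have : 0 ≤ Q * (2 * R ^ 2 * (2 * Cm + 1) + 1) := Nat.zero_le _
          nlinarith
      _ ≤ H := by omega
  have hQY : 2 * Q * Y ≤ H := by rw [hY]; exact Nat.mul_div_le _ _
  have hHY : H ≤ 4 * Q * Y := by
    have h1 : H < 2 * Q * (Y + 1) := by
      rw [hY]
      exact Nat.lt_mul_div_succ _ (by omega)
    have h2 : 1 ≤ Y := by omega
    nlinarith
  have hCmH : 2 * Cm ≤ H := by omega
  obtain ⟨Box, hBox⟩ : ∃ Box : Finset (Fin R → ℕ), Box = Fintype.piFinset (fun _ : Fin R => Icc 1 Y) := ⟨_, rfl⟩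
  have hBoxc : Box.card = Y ^ R := by
    rw [hBox, Fintype.card_piFinset]
    simp
  obtain ⟨Sp, hSp⟩ : ∃ Sp : Finset (Fin R → ℕ), Sp = Box.filter (fun τ => ∀ r s : Fin R, r ≠ s →
    (Cm : ℤ) < |(Q : ℤ) * τ r - Q * τ s|) := ⟨_, rfl⟩
  -- each spread vector gives an extension
  have hmain : ∀ τ ∈ Sp, ∃ ω : Fin R × (Fin 4 × Fin 4) × (Fin K × Fin K) × (Fin J → Fin R) × (Fin J → Fin 4) ×
      (Fin J → Fin K), Function.Injective ω.2.2.2.1 ∧ (∀ s, ω.2.2.2.1 s ≠ ω.1) ∧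
      m ω.2.1.1 < m ω.2.1.2 ∧
      (fun s => ((c (ω.2.2.2.2.1 s, ω.2.2.2.2.2 s) : ℤ) - c (ω.2.1.1, ω.2.2.1.1)) +
        Q * ((τ (ω.2.2.2.1 s) : ℤ) - τ ω.1)) ∈
        ExtSet q b J H ((c (ω.2.1.2, ω.2.2.1.2) : ℤ) - c (ω.2.1.1, ω.2.2.1.1)) := by
    intro τ hτ
    rw [hSp, mem_filter] at hτ
    obtain ⟨hτB, hτs⟩ := hτ
    rw [hBox, Fintype.mem_piFinset] at hτB
    obtain ⟨cL, hcL⟩ : ∃ cL : Fin (R * 4) → Fin K → ℤ, cL = fun w i =>
      (c ((finProdFinEquiv.symm w).2, i) : ℤ) + Q * τ (finProdFinEquiv.symm w).1 := ⟨_, rfl⟩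
    have hcLe : ∀ (r : Fin R) (g : Fin 4) (i : Fin K), cL (finProdFinEquiv (r, g)) i = (c (g, i) : ℤ) + Q * τ r := by
      intro r g i
      rw [hcL]
      simp
    obtain ⟨S, cc, hSc, hgood⟩ := hpick (J + 1) q b hq hb cL (by
      intro w w' i j h
      obtain ⟨⟨r, g⟩, rfl⟩ := finProdFinEquiv.surjective w
      obtain ⟨⟨s, h'⟩, rfl⟩ := finProdFinEquiv.surjective w'
      rw [hcLe, hcLe] at h
      by_cases hrs : r = s
      · subst hrs
        have h1 : (c (g, i) : ℤ) = c (h', j) := add_right_cancel h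
        have h2 := hcinj (by exact_mod_cast h1 : c (g, i) = c (h', j))
        obtain ⟨h3, h4⟩ := Prod.mk.inj h2
        subst h3
        exact ⟨rfl, h4⟩
      · exfalso
        have h1 := hτs r s hrs
        have h2 : (Q : ℤ) * τ r - Q * τ s = (c (h', j) : ℤ) - c (g, i) := by linarith
        rw [h2] at h1
        have h3 : (c (h', j) : ℤ) ≤ Cm := by exact_mod_cast hcC _
        have h4 : (c (g, i) : ℤ) ≤ Cm := by exact_mod_cast hcC _
        have h5 : (0 : ℤ) ≤ c (h', j) := Nat.cast_nonneg _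
        have h6 : (0 : ℤ) ≤ c (g, i) := Nat.cast_nonneg _
        have h7 : |(c (h', j) : ℤ) - c (g, i)| ≤ Cm := by
          rw [abs_le]; constructor <;> linarith
        linarith) (by
      intro p hp hpK hpN
      have hpQ : p ∣ Q := by rw [hQ]; exact Nat.dvd_factorial hp.pos hpK
      have hpQ' : (p : ℤ) ∣ (Q : ℤ) := by exact_mod_cast hpQ
      have hpp := Nat.prime_iff_prime_int.1 hp
      by_cases hpk : (p : ℤ) ∣ (k0 : ℤ)
      · refine ⟨1, fun w i h => ?_⟩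
        obtain ⟨⟨r, g⟩, rfl⟩ := finProdFinEquiv.surjective w
        rw [hcLe] at h
        have h1 : (p : ℤ) ∣ (c (g, i) : ℤ) + Q * τ r := by
          rw [hc]
          push_cast
          exact dvd_add (dvd_add (hpk.mul_left _) (((hpQ'.mul_left _).mul_right _).mul_right _))
            (hpQ'.mul_right _)
        have h2 : (p : ℤ) ∣ 1 := (dvd_add_right h1).1 h
        exact hpp.not_dvd_one h2
      · obtain ⟨r0, hr0⟩ := hadm p hp hpN
        refine ⟨r0 * k0, fun w i h => ?_⟩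
        obtain ⟨⟨r, g⟩, rfl⟩ := finProdFinEquiv.surjective w
        rw [hcLe] at h
        have h1 : (p : ℤ) ∣ (β * l * Q * P * ((i : ℕ) : ℤ) : ℤ) :=
          ((hpQ'.mul_left _).mul_right _).mul_right _
        have h1' : (p : ℤ) ∣ (Q : ℤ) * τ r := hpQ'.mul_right _
        have h2 : (p : ℤ) ∣ (β * m g + r0) * k0 := by
          have e : ((β : ℤ) * m g + r0) * k0 =
              ((c (g, i) : ℤ) + Q * τ r + r0 * k0) - β * l * Q * P * ((i : ℕ) : ℤ) - Q * τ r := by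
            rw [hc]
            push_cast
            ring
          rw [e]
          exact dvd_sub (dvd_sub h h1) h1'
        rcases hpp.dvd_or_dvd h2 with h3 | h3
        · exact hr0 _ h3
        · exact hpk h3)
    -- the pigeonhole
    obtain ⟨S', hS'⟩ : ∃ S' : Finset (Fin R × Fin 4), S' = S.map finProdFinEquiv.symm.toEmbedding := ⟨_, rfl⟩
    have hS'c : S'.card = S.card := by rw [hS', card_map]
    have hS'm : ∀ y, y ∈ S' → finProdFinEquiv y ∈ S := by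
      intro y hy
      rw [hS', Finset.mem_map] at hy
      obtain ⟨w, hw, rfl⟩ := hy
      show finProdFinEquiv (finProdFinEquiv.symm w) ∈ S
      rw [Equiv.apply_symm_apply]
      exact hw
    subst hR
    obtain ⟨r, g, h, rs, gs, hgh, hrg, hrh, hrsS, hrsi, hrsr⟩ := extract J S' (by rw [hS'c]; exact hSc)
    -- wlog `m g < m h`
    have key : ∀ g h : Fin 4, g ≠ h → (r, g) ∈ S' → (r, h) ∈ S' → m g < m h →
        ∃ ω : Fin (4 * (J + 1)) × (Fin 4 × Fin 4) × (Fin K × Fin K) × (Fin J → Fin (4 * (J + 1))) ×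
          (Fin J → Fin 4) × (Fin J → Fin K), Function.Injective ω.2.2.2.1 ∧ (∀ s, ω.2.2.2.1 s ≠ ω.1) ∧
        m ω.2.1.1 < m ω.2.1.2 ∧
        (fun s => ((c (ω.2.2.2.2.1 s, ω.2.2.2.2.2 s) : ℤ) - c (ω.2.1.1, ω.2.2.1.1)) +
          Q * ((τ (ω.2.2.2.1 s) : ℤ) - τ ω.1)) ∈
          ExtSet q b J H ((c (ω.2.1.2, ω.2.2.1.2) : ℤ) - c (ω.2.1.1, ω.2.2.1.1)) := by
      intro g h hgh hrg hrh hmgh
      refine ⟨(r, (g, h), (cc (finProdFinEquiv (r, g)), cc (finProdFinEquiv (r, h))), rs, gs,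
        fun s => cc (finProdFinEquiv (rs s, gs s))), hrsi, hrsr, hmgh, ?_⟩
      obtain ⟨f, hf⟩ : ∃ f : Fin (J + 2) → Fin (4 * (J + 1)) × Fin 4,
        f = Fin.cons (r, g) (Fin.cons (r, h) (fun s => (rs s, gs s))) := ⟨_, rfl⟩
      have hf0 : f 0 = (r, g) := by rw [hf]; rfl
      have hf1 : f (Fin.succ 0) = (r, h) := by rw [hf]; rfl
      have hf2 : ∀ s : Fin J, f s.succ.succ = (rs s, gs s) := by intro s; rw [hf]; rfl
      have hfS : ∀ a, f a ∈ S' := by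
        intro a
        refine Fin.cases ?_ (fun a => Fin.cases ?_ (fun s => ?_) a) a
        · rw [hf0]; exact hrg
        · rw [hf1]; exact hrh
        · rw [hf2]; exact hrsS s
      have hfi : Function.Injective f := by
        intro a a'
        refine Fin.cases ?_ (fun a => Fin.cases ?_ (fun s => ?_) a) a
        · refine Fin.cases (fun _ => rfl) (fun a' => Fin.cases ?_ (fun s' => ?_) a') a'
          · intro h1
            rw [hf0, hf1] at h1
            exact absurd (Prod.mk.inj h1).2 hgh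
          · intro h1
            rw [hf0, hf2] at h1
            exact absurd (Prod.mk.inj h1).1.symm (hrsr s')
        · refine Fin.cases ?_ (fun a' => Fin.cases (fun _ => rfl) (fun s' => ?_) a') a'
          · intro h1
            rw [hf0, hf1] at h1
            exact absurd (Prod.mk.inj h1).2.symm hgh
          · intro h1
            rw [hf1, hf2] at h1
            exact absurd (Prod.mk.inj h1).1.symm (hrsr s')
        · refine Fin.cases ?_ (fun a' => Fin.cases ?_ (fun s' => ?_) a') a'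
          · intro h1
            rw [hf0, hf2] at h1
            exact absurd (Prod.mk.inj h1).1 (hrsr s)
          · intro h1
            rw [hf1, hf2] at h1
            exact absurd (Prod.mk.inj h1).1 (hrsr s)
          · intro h1
            rw [hf2, hf2] at h1
            rw [hrsi (Prod.mk.inj h1).1]
      have h1 := hgood (fun a => finProdFinEquiv (f a)) (fun a a' haa => hfi (finProdFinEquiv.injective haa))
        (fun a => hS'm _ (hfS a))
      refine ⟨?_, ?_⟩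
      · intro s
        have a1 : (c (gs s, cc (finProdFinEquiv (rs s, gs s))) : ℤ) ≤ Cm := by exact_mod_cast hcC _
        have a2 : (c (g, cc (finProdFinEquiv (r, g))) : ℤ) ≤ Cm := by exact_mod_cast hcC _
        have a3 : (0 : ℤ) ≤ c (gs s, cc (finProdFinEquiv (rs s, gs s))) := Nat.cast_nonneg _
        have a4 : (0 : ℤ) ≤ c (g, cc (finProdFinEquiv (r, g))) := Nat.cast_nonneg _
        have b1 := mem_Icc.1 (hτB (rs s))
        have b2 := mem_Icc.1 (hτB r)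
        have b3 : (τ (rs s) : ℤ) ≤ Y := by exact_mod_cast b1.2
        have b4 : (τ r : ℤ) ≤ Y := by exact_mod_cast b2.2
        have b5 : (0 : ℤ) ≤ τ (rs s) := Nat.cast_nonneg _
        have b6 : (0 : ℤ) ≤ τ r := Nat.cast_nonneg _
        have c1 : (2 * Q * Y : ℤ) ≤ H := by exact_mod_cast hQY
        have c2 : (2 * Cm : ℤ) ≤ H := by exact_mod_cast hCmH
        have c3 : |(Q : ℤ) * ((τ (rs s) : ℤ) - τ r)| ≤ Q * Y := by
          rw [abs_mul, Nat.abs_cast]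
          refine mul_le_mul_of_nonneg_left ?_ (Nat.cast_nonneg _)
          rw [abs_le]; constructor <;> linarith
        have c4 := abs_le.1 c3
        show |((c (gs s, cc (finProdFinEquiv (rs s, gs s))) : ℤ) - c (g, cc (finProdFinEquiv (r, g)))) +
          Q * ((τ (rs s) : ℤ) - τ r)| ≤ H
        rw [abs_le]
        constructor <;> linarith
      · convert h1 using 1
        funext j
        refine Fin.cases ?_ (fun s => ?_) j
        · simp only [Fin.cons_zero]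
          rw [hf0, hf1, hcLe, hcLe]
          ring
        · simp only [Fin.cons_succ]
          rw [hf0, hf2, hcLe, hcLe]
          ring
    rcases lt_or_gt_of_ne (fun h1 => hgh (hm h1) : m g ≠ m h) with h1 | h1
    · exact key g h hgh hrg hrh h1
    · exact key h g hgh.symm hrh hrg h1
  -- the count of the spread vectors: from above
  have hH0 : (0 : ℝ) < H := by
    have : 0 < H := lt_of_lt_of_le (Nat.mul_pos (by omega) (by omega)) hQY
    exact_mod_cast this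
  have hYr : (0 : ℝ) < Y := by
    have : 0 < Y := by omega
    exact_mod_cast this
  have hJR : J ≤ R := by omega
  have hup : (Sp.card : ℝ) ≤ Om * (δ * (H : ℝ) ^ J * (Y : ℝ) ^ (R - J)) := by
    obtain ⟨AA, hAA⟩ : ∃ AA : (Fin R × (Fin 4 × Fin 4) × (Fin K × Fin K) × (Fin J → Fin R) × (Fin J → Fin 4) ×
        (Fin J → Fin K)) → Finset (Fin R → ℕ), AA = fun ω => if Function.Injective ω.2.2.2.1 ∧
          (∀ s, ω.2.2.2.1 s ≠ ω.1) ∧ m ω.2.1.1 < m ω.2.1.2 then Box.filter (fun τ =>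
        (fun s => ((c (ω.2.2.2.2.1 s, ω.2.2.2.2.2 s) : ℤ) - c (ω.2.1.1, ω.2.2.1.1)) +
          Q * ((τ (ω.2.2.2.1 s) : ℤ) - τ ω.1)) ∈
          (ExtSet_finite q b J H ((c (ω.2.1.2, ω.2.2.1.2) : ℤ) - c (ω.2.1.1, ω.2.2.1.1))).toFinset) else ∅ :=
      ⟨_, rfl⟩
    have h1 : Sp ⊆ univ.biUnion AA := by
      intro τ hτ
      obtain ⟨ω, h1, h2, h3, h4⟩ := hmain τ hτ
      rw [mem_biUnion]
      refine ⟨ω, mem_univ _, ?_⟩
      rw [hAA]
      simp only
      rw [if_pos ⟨h1, h2, h3⟩, mem_filter]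
      refine ⟨?_, ?_⟩
      · rw [hSp] at hτ
        exact (mem_filter.1 hτ).1
      · rw [Set.Finite.mem_toFinset]
        exact h4
    have h2 : ∀ ω, ((AA ω).card : ℝ) ≤ δ * (H : ℝ) ^ J * (Y : ℝ) ^ (R - J) := by
      intro ω
      rw [hAA]
      simp only
      split_ifs with hω
      · obtain ⟨h3, h4, h5⟩ := hω
        have h6 := few Y ω.1 ω.2.2.2.1 h3 h4
          (fun s => ((c (ω.2.2.2.2.1 s, ω.2.2.2.2.2 s) : ℤ) - c (ω.2.1.1, ω.2.2.1.1))) Q hQ1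
          (ExtSet_finite q b J H ((c (ω.2.1.2, ω.2.2.1.2) : ℤ) - c (ω.2.1.1, ω.2.2.1.1))).toFinset
        have h7 : ((ExtSet_finite q b J H ((c (ω.2.1.2, ω.2.2.1.2) : ℤ) -
            c (ω.2.1.1, ω.2.2.1.1))).toFinset.card : ℝ) ≤ δ * (H : ℝ) ^ J := by
          rw [← Set.ncard_eq_toFinset_card _ (ExtSet_finite q b J H ((c (ω.2.1.2, ω.2.2.1.2) : ℤ) -
            c (ω.2.1.1, ω.2.2.1.1)))]
          have hne : ω.2.1.1 ≠ ω.2.1.2 := fun h8 => by rw [h8] at h5; exact lt_irrefl _ h5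
          obtain ⟨k, hk, h8⟩ := hdiff (ω.2.1.1, ω.2.2.1.1) (ω.2.1.2, ω.2.2.1.2) hne
          have h9 : (c (ω.2.1.2, ω.2.2.1.2) : ℤ) - c (ω.2.1.1, ω.2.2.1.1) =
              ((β * ((m ω.2.1.2 - m ω.2.1.1) * k) : ℕ) : ℤ) := by
            rw [h8]
            push_cast [Nat.cast_sub h5.le]
            ring
          rw [h9]
          by_contra h10
          exact hk.2.2 ⟨ω.2.1.1, ω.2.1.2, h5, (not_le.1 h10).le⟩
        rw [← hBox] at h6
        calc ((Box.filter (fun τ =>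
              (fun s => ((c (ω.2.2.2.2.1 s, ω.2.2.2.2.2 s) : ℤ) - c (ω.2.1.1, ω.2.2.1.1)) +
                Q * ((τ (ω.2.2.2.1 s) : ℤ) - τ ω.1)) ∈
                (ExtSet_finite q b J H ((c (ω.2.1.2, ω.2.2.1.2) : ℤ) -
                  c (ω.2.1.1, ω.2.2.1.1))).toFinset)).card : ℝ) ≤
              (((ExtSet_finite q b J H ((c (ω.2.1.2, ω.2.2.1.2) : ℤ) -
                c (ω.2.1.1, ω.2.2.1.1))).toFinset.card * Y ^ (R - J) : ℕ) : ℝ) := by exact_mod_cast h6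
          _ ≤ δ * (H : ℝ) ^ J * (Y : ℝ) ^ (R - J) := by
              push_cast
              exact mul_le_mul_of_nonneg_right h7 (by positivity)
      · rw [card_empty]
        push_cast
        positivity
    calc (Sp.card : ℝ) ≤ ((univ.biUnion AA).card : ℝ) := by exact_mod_cast card_le_card h1
      _ ≤ ∑ ω, ((AA ω).card : ℝ) := by exact_mod_cast card_biUnion_le
      _ ≤ ∑ _ω : Fin R × (Fin 4 × Fin 4) × (Fin K × Fin K) × (Fin J → Fin R) × (Fin J → Fin 4) ×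
          (Fin J → Fin K), δ * (H : ℝ) ^ J * (Y : ℝ) ^ (R - J) := sum_le_sum fun ω _ => h2 ω
      _ = _ := by rw [sum_const, card_univ, nsmul_eq_mul, ← hOm]
  -- from below
  have hlow : (Y : ℝ) ^ R / 2 ≤ Sp.card := by
    obtain ⟨E, hE⟩ : ∃ E : Finset (Fin 1 → ℤ), E = Fintype.piFinset (fun _ => Icc (-(Cm : ℤ)) Cm) := ⟨_, rfl⟩
    have hEc : E.card = 2 * Cm + 1 := by
      rw [hE, Fintype.card_piFinset]
      simp only [univ_unique, prod_singleton, Int.card_Icc]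
      omega
    have h1 : Box ⊆ Sp ∪ (univ : Finset (Fin R × Fin R)).biUnion (fun y => if y.1 ≠ y.2 then
        Box.filter (fun τ => (fun _ : Fin 1 => (0 : ℤ) + Q * ((τ y.1 : ℤ) - τ y.2)) ∈ E) else ∅) := by
      intro τ hτ
      by_cases hs : ∀ r s : Fin R, r ≠ s → (Cm : ℤ) < |(Q : ℤ) * τ r - Q * τ s|
      · apply mem_union_left
        rw [hSp]
        exact mem_filter.2 ⟨hτ, hs⟩
      · apply mem_union_right
        push Not at hs
        obtain ⟨r, s, hrs, h2⟩ := hs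
        rw [mem_biUnion]
        refine ⟨(r, s), mem_univ _, ?_⟩
        rw [if_pos hrs, mem_filter]
        refine ⟨hτ, ?_⟩
        rw [hE, Fintype.mem_piFinset]
        intro _
        rw [mem_Icc, ← abs_le, zero_add, mul_sub]
        exact h2
    have h2 : ∀ y : Fin R × Fin R, (if y.1 ≠ y.2 then
        Box.filter (fun τ => (fun _ : Fin 1 => (0 : ℤ) + Q * ((τ y.1 : ℤ) - τ y.2)) ∈ E) else ∅).card ≤
        (2 * Cm + 1) * Y ^ (R - 1) := by
      intro y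
      split_ifs with hy
      · have h3 := few Y y.2 (fun _ : Fin 1 => y.1) (fun _ _ _ => Subsingleton.elim _ _) (fun _ => hy)
          (fun _ => 0) Q hQ1 E
        rw [hEc, ← hBox] at h3
        exact h3
      · simp
    have h3 : Y ^ R ≤ Sp.card + R ^ 2 * ((2 * Cm + 1) * Y ^ (R - 1)) := by
      rw [← hBoxc]
      refine (card_le_card h1).trans ((card_union_le _ _).trans (Nat.add_le_add_left ?_ _))
      refine card_biUnion_le.trans ((sum_le_sum fun y _ => h2 y).trans ?_)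
      rw [sum_const, card_univ, Fintype.card_prod, Fintype.card_fin, smul_eq_mul, pow_two]
    have h4 : Y ^ R = Y * Y ^ (R - 1) := by
      rw [← pow_succ']
      congr 1
      omega
    have h5 : 2 * (R ^ 2 * ((2 * Cm + 1) * Y ^ (R - 1))) ≤ Y ^ R := by
      rw [h4]
      calc 2 * (R ^ 2 * ((2 * Cm + 1) * Y ^ (R - 1))) = (2 * R ^ 2 * (2 * Cm + 1)) * Y ^ (R - 1) := by ring
        _ ≤ Y * Y ^ (R - 1) := Nat.mul_le_mul_right _ (by omega)
    have h6 : Y ^ R ≤ 2 * Sp.card := by omega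
    have h7 : (Y : ℝ) ^ R ≤ 2 * Sp.card := by exact_mod_cast h6
    linarith
  -- the contradiction
  have hfin : (H : ℝ) ^ J * (Y : ℝ) ^ (R - J) ≤ (4 * Q : ℝ) ^ J * (Y : ℝ) ^ R := by
    have h1 : (H : ℝ) ≤ 4 * Q * Y := by exact_mod_cast hHY
    have h2 : (H : ℝ) ^ J ≤ (4 * Q * Y : ℝ) ^ J := pow_le_pow_left₀ hH0.le h1 _
    calc (H : ℝ) ^ J * (Y : ℝ) ^ (R - J) ≤ (4 * Q * Y : ℝ) ^ J * (Y : ℝ) ^ (R - J) :=
          mul_le_mul_of_nonneg_right h2 (by positivity)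
      _ = (4 * Q : ℝ) ^ J * ((Y : ℝ) ^ J * (Y : ℝ) ^ (R - J)) := by rw [mul_pow]; ring
      _ = _ := by rw [← pow_add, Nat.add_sub_cancel' hJR]
  have hYR : (0 : ℝ) < (Y : ℝ) ^ R := by positivity
  have hlast : (Y : ℝ) ^ R / 2 ≤ (Y : ℝ) ^ R / 4 := by
    calc (Y : ℝ) ^ R / 2 ≤ Sp.card := hlow
      _ ≤ Om * (δ * (H : ℝ) ^ J * (Y : ℝ) ^ (R - J)) := hup
      _ = Om * δ * ((H : ℝ) ^ J * (Y : ℝ) ^ (R - J)) := by ring
      _ ≤ Om * δ * ((4 * Q : ℝ) ^ J * (Y : ℝ) ^ R) := mul_le_mul_of_nonneg_left hfin (by positivity)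
      _ = (Y : ℝ) ^ R / 4 := by
          rw [hδ]
          field_simp
  linarith

end Pool.Agent.P8H13.AD
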