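import Mathlib
import Pool.Agent.P8H13.AD.Ext

/-!
# Dilates with many extensions in every progression, and for almost all `k` (helper13)
-/

set_option autoImplicit false

namespace Pool.Agent.P8H13.AD

open Finset

/-- every progression of `ℓ` positive integers contains a `k` with a dilate which has many extensions -/
theorem extAP (m : Fin 4 → ℕ) (hm : Function.Injective m) (J : ℕ) : ∃ (ℓ L : ℕ) (δ : ℝ), 0 < δ ∧
    ∀ (q : ℕ) (b : ℤ), 1 ≤ q → IsCoprime (q : ℤ) b → ∀ β : ℕ, 1 ≤ β →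
    (∀ p : ℕ, p.Prime → ¬ p ∣ q → ∃ r : ℤ, ∀ i, ¬ (p : ℤ) ∣ β * m i + r) →
    ∀ x d : ℕ, 1 ≤ x → 1 ≤ d → ∀ H : ℕ, L * (β * (x + d)) ≤ H →
      ∃ t < ℓ, ExtGood m q b β J H δ (x + t * d) := by
  obtain ⟨W, L, δ, hW, hδ, h⟩ := extCore m hm J
  refine ⟨2 * W + 1, L * (2 * W + 1), δ, hδ, fun q b hq hb β hβ hadm x d hx hd H hH => ?_⟩
  by_contra hcon
  push Not at hcon
  refine h q b hq hb β hβ hadm ((x : ℤ) + W * d) d hd (x + 2 * W * d) H (le_trans ?_ hH) (fun z hz => ?_)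
  · have h1 : x + 2 * W * d ≤ (2 * W + 1) * (x + d) := by nlinarith [Nat.zero_le (W * x)]
    calc L * (β * (x + 2 * W * d)) ≤ L * (β * ((2 * W + 1) * (x + d))) :=
          Nat.mul_le_mul_left _ (Nat.mul_le_mul_left _ h1)
      _ = L * (2 * W + 1) * (β * (x + d)) := by ring
  · have h1 := abs_le.1 hz
    have h2 : (((z + W).toNat : ℕ) : ℤ) = z + W := Int.toNat_of_nonneg (by linarith)
    have h3 : (z + W).toNat < 2 * W + 1 := by
      have : (((z + W).toNat : ℕ) : ℤ) < ((2 * W + 1 : ℕ) : ℤ) := by rw [h2]; push_cast; linarith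
      exact_mod_cast this
    refine ⟨x + (z + W).toNat * d, ⟨by omega, ?_, hcon _ h3⟩, ?_⟩
    · have : (z + W).toNat * d ≤ 2 * W * d := Nat.mul_le_mul_right _ (by omega)
      omega
    · push_cast
      rw [h2]
      ring

open Classical in
theorem extAll (m : Fin 4 → ℕ) (hm : Function.Injective m) (J : ℕ) : ∃ δ : ℝ, 0 < δ ∧
    ∀ ε : ℝ, 0 < ε → ∃ L : ℕ,
    ∀ (q : ℕ) (b : ℤ), 1 ≤ q → IsCoprime (q : ℤ) b → ∀ β : ℕ, 1 ≤ β →
    (∀ p : ℕ, p.Prime → ¬ p ∣ q → ∃ r : ℤ, ∀ i, ¬ (p : ℤ) ∣ β * m i + r) →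
    ∀ u T : ℕ, L ≤ T → ∀ H : ℕ, L * (β * (u + T)) ≤ H →
    (1 - ε) * (T : ℝ) ≤ (((Ioc u (u + T)).filter (fun k => ExtGood m q b β J H δ k)).card : ℝ) := by
  obtain ⟨ℓ, L, δ, hδ, h⟩ := extAP m hm J
  refine ⟨δ, hδ, fun ε hε => ?_⟩
  obtain ⟨n, hn, hsz⟩ := Pool.Agent.Y863.AA.msz (Fin (ℓ + 1)) ε hε
  refine ⟨n * ℓ + 1 + L * (n + 1), fun q b hq hb β hβ hadm u T hT H hH => ?_⟩
  have hT1 : n * ℓ + 1 ≤ T := le_trans (Nat.le_add_right _ _) hT
  by_contra hcon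
  rw [not_le] at hcon
  obtain ⟨Bn, hBn⟩ : ∃ Bn : Finset ℕ, Bn = (Ioc u (u + T)).filter (fun k => ¬ ExtGood m q b β J H δ k) :=
    ⟨_, rfl⟩
  have hsum : ((Ioc u (u + T)).filter (fun k => ExtGood m q b β J H δ k)).card + Bn.card = T := by
    rw [hBn, card_filter_add_card_filter_not, Nat.card_Ioc]
    omega
  have h2 : ((((Ioc u (u + T)).filter (fun k => ExtGood m q b β J H δ k)).card + Bn.card : ℕ) : ℝ) = T := by
    rw [hsum]
  push_cast at h2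
  have hmem : ∀ k ∈ Bn, u < k ∧ k ≤ u + T ∧ ¬ ExtGood m q b β J H δ k := by
    intro k hk
    rw [hBn, mem_filter, mem_Ioc] at hk
    exact ⟨hk.1.1, hk.1.2, hk.2⟩
  obtain ⟨B, hB⟩ : ∃ B : Finset ℕ, B = Bn.image (fun k => k - u) := ⟨_, rfl⟩
  have hBc : B.card = Bn.card := by
    rw [hB]
    apply card_image_of_injOn
    intro k hk k' hk' hkk
    have h3 := hmem k (mem_coe.1 hk)
    have h4 := hmem k' (mem_coe.1 hk')
    have h5 : k - u = k' - u := hkk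
    omega
  obtain ⟨x, l, hl1, hln, hx⟩ := hsz (fun t => ((t : ℕ) : ℤ)) ℓ (by
      intro t
      rw [Nat.abs_cast]
      exact_mod_cast Nat.le_of_lt_succ t.2) T (by omega) (by omega) B (by
      intro y hy
      rw [hB, mem_image] at hy
      obtain ⟨k, hk, rfl⟩ := hy
      have h3 := hmem k hk
      rw [mem_Ioc]
      omega) (by
      rw [hBc]
      linarith)
  have hbad : ∀ t : Fin (ℓ + 1), ∃ k : ℕ, 1 ≤ k ∧ k ≤ u + T ∧ ¬ ExtGood m q b β J H δ k ∧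
      (u : ℤ) + x + l * ((t : ℕ) : ℤ) = k := by
    intro t
    obtain ⟨y, hy, h3⟩ := hx t
    rw [hB, mem_image] at hy
    obtain ⟨k, hk, rfl⟩ := hy
    have h4 := hmem k hk
    refine ⟨k, by omega, h4.2.1, h4.2.2, ?_⟩
    have h5 : ((k - u : ℕ) : ℤ) = (k : ℤ) - u := by
      rw [Nat.cast_sub h4.1.le]
    rw [h5] at h3
    linarith
  obtain ⟨k0, hk0, hk0T, -, hk0'⟩ := hbad 0
  obtain ⟨t, ht, hg⟩ := h q b hq hb β hβ hadm k0 l hk0 hl1 H (by
    refine le_trans ?_ hH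
    have h6 : k0 + l ≤ (n + 1) * (u + T) := by
      have h7 : 1 ≤ u + T := by omega
      nlinarith
    calc L * (β * (k0 + l)) ≤ L * (β * ((n + 1) * (u + T))) :=
          Nat.mul_le_mul_left _ (Nat.mul_le_mul_left _ h6)
      _ = L * (n + 1) * (β * (u + T)) := by ring
      _ ≤ _ := Nat.mul_le_mul_right _ (Nat.le_add_left _ _))
  obtain ⟨k, -, -, hk, hk'⟩ := hbad ⟨t, by omega⟩
  have h6 : k = k0 + t * l := by
    have h7 : (k : ℤ) = ((k0 + t * l : ℕ) : ℤ) := by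
      push_cast
      rw [← hk', ← hk0']
      push_cast
      simp only [Fin.val_zero, Nat.cast_zero]
      ring
    exact_mod_cast h7
  rw [h6] at hk
  exact hk hg

end Pool.Agent.P8H13.AD
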