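import Mathlib
import Pool.Agent.P8H13.AD.Cons
import Pool.Agent.Y863.AA.Cls
import Pool.Agent.Y827.RO.NarR

/-!
# First prime iterates of `x ↦ 2 x - 1` along narrow progressions (helper13)
-/

set_option autoImplicit false

namespace Pool.Agent.P8H13.AD

open Finset Filter Topology
open Pool.Agent.Y827.RO Pool.Agent.Y827.HN

/-- the `t`-th iterate of `x ↦ 2 x - 1` -/
def gI (t n : ℕ) : ℕ := 2 ^ t * (n - 1) + 1

theorem gI_form (t n : ℕ) (hn : 1 ≤ n) :
    (((2 ^ t : ℕ) : ℤ) * (n : ℤ) + (-(((2 ^ t : ℕ) : ℤ) - 1))).toNat = gI t n := by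
  have h1 : ((2 ^ t : ℕ) : ℤ) * (n : ℤ) + (-(((2 ^ t : ℕ) : ℤ) - 1)) = ((gI t n : ℕ) : ℤ) := by
    unfold gI
    push_cast [Nat.cast_sub hn]
    ring
  rw [h1, Int.toNat_natCast]

theorem gI_comp (s t n : ℕ) : gI s (gI t n) = gI (s + t) n := by
  unfold gI
  rw [Nat.add_sub_cancel, pow_add]
  ring

/-- `p` is a prime, its `t`-th iterate is prime and no iterate between is prime -/
def RetP (t p : ℕ) : Prop := p.Prime ∧ (gI t p).Prime ∧ ∀ s : ℕ, 0 < s → s < t → ¬ (gI s p).Prime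

open Classical in
noncomputable def cR (t l D x : ℕ) : ℕ :=
  ((Icc 1 x).filter (fun m : ℕ => ∀ j < l, RetP t (m + j * D))).card

/-- many narrow progressions -/
def RetAt (t l C x : ℕ) : Prop :=
  ∃ D : ℕ, 1 ≤ D ∧ (D : ℝ) ≤ Real.log x ^ C ∧ (x : ℝ) / Real.log x ^ C ≤ (cR t l D x : ℝ)

theorem RetAt_len {t l l' C x : ℕ} (hl : l ≤ l') (h : RetAt t l' C x) : RetAt t l C x := by
  classical
  obtain ⟨D, h1, h2, h3⟩ := h
  refine ⟨D, h1, h2, h3.trans ?_⟩
  rw [Nat.cast_le]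
  unfold cR
  apply card_le_card
  intro n hn
  rw [mem_filter] at hn ⊢
  exact ⟨hn.1, fun j hj => hn.2 j (lt_of_lt_of_le hj hl)⟩

open Classical in
theorem consI {T K : ℕ}
    (hnar : ∀ H : Fin T → Fin K → ℤ × ℤ, Function.Injective (fun x : Fin T × Fin K => H x.1 x.2) →
      (∀ g i, 0 < (H g i).1 ∧ IsCoprime (H g i).1 (H g i).2) →
      (∀ p : ℕ, p.Prime → p ≤ T * K → ∃ r : ℤ, ∀ g i, ¬ (p : ℤ) ∣ (H g i).1 * r + (H g i).2) →
      ∀ l : ℕ, ∃ C : ℕ, ∀ᶠ N : ℕ in atTop, ∃ (S : Finset (Fin T)) (σ : Fin T → Fin K),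
        1 + 1 ≤ S.card ∧ QN l C N (S.image (fun g => H g (σ g))))
    (c : Fin T × Fin K → ℕ) (hc : Function.Injective c) (l : ℕ) :
    ∃ C : ℕ, ∀ᶠ x : ℕ in atTop, ∃ z w : Fin T × Fin K, z.1 ≠ w.1 ∧ c z < c w ∧
      RetAt (c w - c z) l C x := by
  obtain ⟨W, B0, hW1, hB0, href⟩ := vref (Fin T × Fin K) l
  obtain ⟨A0, hA0⟩ : ∃ A0 : ℕ, A0 = ∑ z, c z := ⟨_, rfl⟩
  have hcA : ∀ z, c z ≤ A0 := by
    intro z
    rw [hA0]
    exact single_le_sum (f := c) (fun _ _ => Nat.zero_le _) (mem_univ z)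
  obtain ⟨N, hNdef⟩ : ∃ N : ℕ, N = 2 ^ A0 := ⟨_, rfl⟩
  have hN : 1 ≤ N := by rw [hNdef]; exact Nat.one_le_two_pow
  have hcN : ∀ z, 2 ^ c z ≤ N := by
    intro z
    rw [hNdef]
    exact Nat.pow_le_pow_right (by norm_num) (hcA z)
  obtain ⟨Ub, hUb⟩ : ∃ Ub : Finset ℕ, Ub = (range (A0 + 1)).filter (fun s => ∀ z, s ≠ c z) := ⟨_, rfl⟩
  have hUbm : ∀ s ∈ Ub, ∀ z, s ≠ c z := by
    intro s hs
    rw [hUb, mem_filter] at hs
    exact hs.2
  have hcop : ∀ t : ℕ, IsCoprime (((2 ^ t : ℕ) : ℤ)) (-(((2 ^ t : ℕ) : ℤ) - 1)) := fun t =>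
    ⟨1, 1, by ring⟩
  have hpow : ∀ s t : ℕ, ((2 ^ s : ℕ) : ℤ) = ((2 ^ t : ℕ) : ℤ) → s = t := by
    intro s t h
    have h1 : 2 ^ s = 2 ^ t := by exact_mod_cast h
    exact Nat.pow_right_injective le_rfl h1
  have hpos2 : ∀ t : ℕ, (0 : ℤ) < ((2 ^ t : ℕ) : ℤ) := by
    intro t
    have : 0 < 2 ^ t := by positivity
    exact_mod_cast this
  obtain ⟨C, hC⟩ := forced (M := 1) hnar
    (fun g i => (((2 ^ c (g, i) : ℕ) : ℤ), -(((2 ^ c (g, i) : ℕ) : ℤ) - 1)))
    (fun s : Ub => (((2 ^ (s : ℕ) : ℕ) : ℤ), -(((2 ^ (s : ℕ) : ℕ) : ℤ) - 1)))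
    (by
      intro y y' h
      have h1 : ((2 ^ c (y.1, y.2) : ℕ) : ℤ) = ((2 ^ c (y'.1, y'.2) : ℕ) : ℤ) := congrArg Prod.fst h
      exact hc (hpow _ _ h1))
    (by
      intro s g i h
      have h1 : ((2 ^ (s : ℕ) : ℕ) : ℤ) = ((2 ^ c (g, i) : ℕ) : ℤ) := congrArg Prod.fst h
      exact hUbm s s.2 _ (hpow _ _ h1))
    (fun g i => ⟨hpos2 _, hcop _⟩)
    (fun s => ⟨hpos2 _, hcop _⟩)
    (by
      intro p hp _
      refine ⟨1, fun g i h => ?_⟩
      have h1 : (p : ℤ) ∣ ((2 ^ c (g, i) : ℕ) : ℤ) * 1 + (-(((2 ^ c (g, i) : ℕ) : ℤ) - 1)) := h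
      have e : ((2 ^ c (g, i) : ℕ) : ℤ) * 1 + (-(((2 ^ c (g, i) : ℕ) : ℤ) - 1)) = 1 := by ring
      rw [e] at h1
      exact (Nat.prime_iff_prime_int.1 hp).not_dvd_one h1)
    (W + 1)
  have hdiv : Tendsto (fun x : ℕ => x / (2 * N)) atTop atTop := by
    refine tendsto_atTop.2 fun b => ?_
    filter_upwards [eventually_ge_atTop (b * (2 * N))] with x hx
    exact (Nat.le_div_iff_mul_le (by omega)).2 hx
  refine ⟨C + 1, ?_⟩
  filter_upwards [hdiv.eventually hC, sizes N W B0 C 1 hN] with x hx hsz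
  obtain ⟨hl1, hl2, hl3, hl4, hl5, hx6⟩ := hsz
  obtain ⟨S, σ, hS2, d, hd1, hd2, hcnt⟩ := hx
  obtain ⟨X, hX⟩ : ∃ X : ℕ, X = x / (2 * N) := ⟨_, rfl⟩
  rw [← hX] at hd2 hcnt
  have hX3 : 3 ≤ X := by
    rw [hX]
    exact (Nat.le_div_iff_mul_le (by omega)).2 (by omega)
  have hXx : 2 * N * X ≤ x := by rw [hX]; exact Nat.mul_div_le _ _
  have hXle : X ≤ x := by
    refine le_trans ?_ hXx
    exact Nat.le_mul_of_pos_left _ (by omega)
  have hXr : (1 : ℝ) ≤ Real.log X := log_ge_one hX3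
  have hX0 : (0 : ℝ) < X := by exact_mod_cast (by omega : 0 < X)
  have hNr : (1 : ℝ) ≤ N := by exact_mod_cast hN
  have hlogle : Real.log X ≤ Real.log x :=
    Real.log_le_log hX0 (by exact_mod_cast hXle)
  have hpowle : Real.log X ^ C ≤ Real.log x ^ C :=
    pow_le_pow_left₀ (by linarith) hlogle _
  have hpowpos : 0 < Real.log X ^ C := pow_pos (by linarith) _
  have hpowposx : 0 < Real.log x ^ C := pow_pos (by linarith) _
  have hXlow : (x : ℝ) / (4 * N) ≤ X := by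
    have h1 : x < 2 * N * (X + 1) := by
      rw [hX]
      exact Nat.lt_mul_div_succ _ (by omega)
    have h2 : (x : ℝ) < 2 * N * (X + 1) := by exact_mod_cast h1
    have h3 : (3 : ℝ) ≤ X := by exact_mod_cast hX3
    rw [div_le_iff₀ (by positivity)]
    nlinarith
  -- the set of the starting points
  unfold cntX at hcnt
  obtain ⟨Ns, hNs⟩ : ∃ Ns : Finset ℕ, Ns = ((Icc (W + 1 + 1) X).filter (fun n : ℕ => ∀ j < W + 1,
    (∀ f ∈ S.image (fun g => (((2 ^ c (g, σ g) : ℕ) : ℤ), -(((2 ^ c (g, σ g) : ℕ) : ℤ) - 1))),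
      (f.1 * ((n + j * d : ℕ) : ℤ) + f.2).toNat.Prime) ∧
    ∀ f ∈ univ.image (fun s : Ub => (((2 ^ (s : ℕ) : ℕ) : ℤ), -(((2 ^ (s : ℕ) : ℕ) : ℤ) - 1))),
      ¬ (f.1 * ((n + j * d : ℕ) : ℤ) + f.2).toNat.Prime)) := ⟨_, rfl⟩
  rw [← hNs] at hcnt
  have hNpos : 0 < (Ns.card : ℝ) := lt_of_lt_of_le (by positivity) hcnt
  have hNne : Ns.Nonempty := by
    rw [← card_pos]
    exact_mod_cast hNpos
  have hNsI : ∀ n ∈ Ns, W + 2 ≤ n ∧ n ≤ X := by
    intro n hn
    rw [hNs, mem_filter, mem_Icc] at hn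
    exact hn.1
  have hprime : ∀ n ∈ Ns, ∀ j < W + 1, ∀ g ∈ S, (gI (c (g, σ g)) (n + j * d)).Prime := by
    intro n hn j hj g hg
    have hn1 := (hNsI n hn).1
    rw [hNs, mem_filter] at hn
    have h1 := (hn.2 j hj).1 _ (mem_image_of_mem _ hg)
    rw [← gI_form _ _ (by omega)]
    exact h1
  have hblock : ∀ n ∈ Ns, ∀ j < W + 1, ∀ s ∈ Ub, ¬ (gI s (n + j * d)).Prime := by
    intro n hn j hj s hs
    have hn1 := (hNsI n hn).1
    rw [hNs, mem_filter] at hn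
    have h1 := (hn.2 j hj).2 _ (mem_image_of_mem _ (mem_univ (⟨s, hs⟩ : Ub)))
    rw [← gI_form _ _ (by omega)]
    exact h1
  obtain ⟨x0, s, Z, hs1, hsW, hxs, hfib⟩ := href (fun z n => (gI (c z) n).Prime) d Ns hNne
  obtain ⟨Nf, hNf⟩ : ∃ Nf : Finset ℕ, Nf = Ns.filter (fun n => ∀ k ≤ l, ∀ i : Fin T × Fin K,
    ((gI (c i) (n + (x0 + k * s) * d)).Prime ↔ i ∈ Z)) := ⟨_, rfl⟩
  replace hfib : (Ns.card : ℝ) ≤ B0 * (Nf.card : ℝ) := by
    rw [hNf]
    convert hfib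
  have hNfpos : 0 < (Nf.card : ℝ) := by
    by_contra h
    have h1 : (Nf.card : ℝ) = 0 := le_antisymm (not_lt.1 h) (Nat.cast_nonneg _)
    rw [h1, mul_zero] at hfib
    linarith
  obtain ⟨n1, hn1⟩ : Nf.Nonempty := by
    rw [← card_pos]
    exact_mod_cast hNfpos
  have hn1' := hn1
  rw [hNf, mem_filter] at hn1'
  -- two classes
  have htwo : ∃ z ∈ Z, ∃ w ∈ Z, z.1 ≠ w.1 := by
    obtain ⟨g, hg, h, hh, hgh⟩ := one_lt_card.1 (by omega : 1 < S.card)
    have hx0 : x0 < W + 1 := by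
      have : 0 ≤ l * s := Nat.zero_le _
      omega
    refine ⟨(g, σ g), ?_, (h, σ h), ?_, hgh⟩
    · have h1 := (hn1'.2 0 (Nat.zero_le _) (g, σ g)).1
      rw [zero_mul, add_zero] at h1
      exact h1 (hprime n1 hn1'.1 x0 hx0 g hg)
    · have h1 := (hn1'.2 0 (Nat.zero_le _) (h, σ h)).1
      rw [zero_mul, add_zero] at h1
      exact h1 (hprime n1 hn1'.1 x0 hx0 h hh)
  obtain ⟨z, hz, w, hw, hzw, hlt, hadj⟩ := adjacent c hc Z htwo
  have hcz1 : 1 ≤ 2 ^ c z := Nat.one_le_two_pow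
  refine ⟨z, w, hzw, hlt, 2 ^ c z * (s * d), ?_, ?_, ?_⟩
  · exact Nat.succ_le_of_lt (Nat.mul_pos (by omega) (Nat.mul_pos (by omega) (by omega)))
  · have h1 : (s : ℝ) ≤ W := by exact_mod_cast hsW
    have hs0 : (0 : ℝ) ≤ s := Nat.cast_nonneg _
    have hd0 : (0 : ℝ) ≤ d := Nat.cast_nonneg _
    have h2 : ((2 ^ c z : ℕ) : ℝ) ≤ N := by exact_mod_cast hcN z
    have e : ((2 ^ c z * (s * d) : ℕ) : ℝ) = ((2 ^ c z : ℕ) : ℝ) * ((s : ℝ) * d) := by push_cast; ring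
    rw [e]
    calc ((2 ^ c z : ℕ) : ℝ) * ((s : ℝ) * d) ≤ N * ((s : ℝ) * d) :=
          mul_le_mul_of_nonneg_right h2 (by positivity)
      _ ≤ N * (W * Real.log x ^ C) := by
          refine mul_le_mul_of_nonneg_left ?_ (by linarith)
          exact mul_le_mul h1 (hd2.trans hpowle) hd0 (Nat.cast_nonneg _)
      _ = (N * W) * Real.log x ^ C := by ring
      _ ≤ Real.log x * Real.log x ^ C := mul_le_mul_of_nonneg_right hl3 hpowposx.le
      _ = Real.log x ^ (C + 1) := by ring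
  -- the count
  have hcard : Nf.card ≤ cR (c w - c z) l (2 ^ c z * (s * d)) x := by
    unfold cR
    apply card_le_card_of_injOn (fun n : ℕ => gI (c z) (n + x0 * d))
    · intro n hn
      have hn' := mem_coe.1 hn
      rw [hNf, mem_filter] at hn'
      obtain ⟨hnN, hpat⟩ := hn'
      obtain ⟨hnW, hnX⟩ := hNsI n hnN
      rw [mem_coe, mem_filter, mem_Icc]
      refine ⟨⟨?_, ?_⟩, ?_⟩
      · show 1 ≤ gI (c z) (n + x0 * d)
        unfold gI
        omega
      · show gI (c z) (n + x0 * d) ≤ x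
        have e0 : gI (c z) (n + x0 * d) ≤ N * (n + x0 * d) + 1 := by
          unfold gI
          exact Nat.add_le_add_right (Nat.mul_le_mul (hcN z) (Nat.sub_le _ _)) _
        refine e0.trans ?_
        have e1 : ((N * (n + x0 * d) + 1 : ℕ) : ℝ) ≤ x := by
          have e3 : ((2 * N * X : ℕ) : ℝ) ≤ x := by exact_mod_cast hXx
          have e4 : (n : ℝ) ≤ X := by exact_mod_cast hnX
          have e5 : (x0 : ℝ) ≤ W := by
            have : x0 ≤ W := by
              have : 0 ≤ l * s := Nat.zero_le _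
              omega
            exact_mod_cast this
          have e6 : (x0 : ℝ) * d ≤ W * Real.log x ^ C :=
            mul_le_mul e5 (hd2.trans hpowle) (Nat.cast_nonneg _) (Nat.cast_nonneg _)
          push_cast at e3 hl5 ⊢
          have e7 : (N : ℝ) * (x0 * d) ≤ N * W * Real.log x ^ C := by
            rw [mul_assoc]
            exact mul_le_mul_of_nonneg_left e6 (by linarith)
          have e8 : (N : ℝ) * n ≤ N * X := mul_le_mul_of_nonneg_left e4 (by linarith)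
          nlinarith
        exact_mod_cast e1
      · intro j hj
        have hjW : x0 + j * s < W + 1 := by
          have : j * s ≤ l * s := Nat.mul_le_mul_right _ hj.le
          omega
        obtain ⟨n', hn'⟩ : ∃ n' : ℕ, n' = n + (x0 + j * s) * d := ⟨_, rfl⟩
        have hn'1 : n + x0 * d ≤ n' := by
          rw [hn', add_mul, ← add_assoc]
          exact Nat.le_add_right _ _
        have e : gI (c z) (n + x0 * d) + j * (2 ^ c z * (s * d)) = gI (c z) n' := by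
          unfold gI
          have h1 : n' - 1 = (n + x0 * d - 1) + j * (s * d) := by
            have h2 : n' = n + x0 * d + j * (s * d) := by rw [hn']; ring
            omega
          rw [h1, mul_add]
          ring
        have hpat' : ∀ i : Fin T × Fin K, ((gI (c i) n').Prime ↔ i ∈ Z) := by
          intro i
          rw [hn']
          exact hpat j hj.le i
        show RetP (c w - c z) (gI (c z) (n + x0 * d) + j * (2 ^ c z * (s * d)))
        rw [e]
        refine ⟨(hpat' z).2 hz, ?_, ?_⟩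
        · rw [gI_comp, Nat.sub_add_cancel hlt.le]
          exact (hpat' w).2 hw
        · intro t ht1 ht2 htp
          rw [gI_comp] at htp
          by_cases hv : ∃ v, t + c z = c v
          · obtain ⟨v, hv⟩ := hv
            have h3 : v ∈ Z := (hpat' v).1 (by rw [← hv]; exact htp)
            exact hadj v h3 ⟨by omega, by omega⟩
          · have h1 : t + c z ∈ Ub := by
              rw [hUb, mem_filter, mem_range]
              refine ⟨?_, fun z hz => hv ⟨z, hz⟩⟩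
              have := hcA w
              omega
            have h2 := hblock n hnN (x0 + j * s) hjW _ h1
            rw [← hn'] at h2
            exact h2 htp
    · intro n hn n' hn' h
      have hn1 := (hNsI n ((mem_filter.1 (hNf ▸ mem_coe.1 hn)).1)).1
      have hn2 := (hNsI n' ((mem_filter.1 (hNf ▸ mem_coe.1 hn')).1)).1
      have h1 : 2 ^ c z * (n + x0 * d - 1) + 1 = 2 ^ c z * (n' + x0 * d - 1) + 1 := h
      have h2 : 2 ^ c z * (n + x0 * d - 1) = 2 ^ c z * (n' + x0 * d - 1) := by omega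
      have h3 := Nat.eq_of_mul_eq_mul_left (by omega) h2
      omega
  have hcard' : (Nf.card : ℝ) ≤ (cR (c w - c z) l (2 ^ c z * (s * d)) x : ℝ) := by
    exact_mod_cast hcard
  refine le_trans ?_ hcard'
  have hB0r : (1 : ℝ) ≤ B0 := by exact_mod_cast hB0
  have h1 : (x : ℝ) / (4 * N * Real.log x ^ C) ≤ B0 * Nf.card := by
    calc (x : ℝ) / (4 * N * Real.log x ^ C) = (x / (4 * N)) / Real.log x ^ C := by
          rw [div_div]
      _ ≤ X / Real.log x ^ C := div_le_div_of_nonneg_right hXlow hpowposx.le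
      _ ≤ X / Real.log X ^ C := div_le_div_of_nonneg_left hX0.le hpowpos hpowle
      _ ≤ Ns.card := hcnt
      _ ≤ _ := hfib
  rw [div_le_iff₀ (by positivity)] at h1
  rw [div_le_iff₀ (by positivity)]
  have h2 : (4 * N * B0 : ℝ) * Real.log x ^ C ≤ Real.log x ^ (C + 1) := by
    rw [pow_succ, mul_comm (Real.log x ^ C)]
    exact mul_le_mul_of_nonneg_right hl2 hpowposx.le
  calc (x : ℝ) ≤ B0 * Nf.card * (4 * N * Real.log x ^ C) := h1
    _ = Nf.card * ((4 * N * B0 : ℝ) * Real.log x ^ C) := by ring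
    _ ≤ Nf.card * Real.log x ^ (C + 1) := mul_le_mul_of_nonneg_left h2 (Nat.cast_nonneg _)

end Pool.Agent.P8H13.AD
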