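import Mathlib
import Pool.Agent.P8H13.AD.Cons
import Pool.Agent.Y863.AA.Cls
import Pool.Agent.Y827.RO.NarR

/-!
# Almost all dilates of four shifts: gaps along narrow progressions (helper13)
-/

set_option autoImplicit false

namespace Pool.Agent.P8H13.AD

open Finset Filter Topology

/-- for every length `l` there is `C` such that, for arbitrarily large `x`, there are many narrow progressions -/
def NarGap (N a g : ℕ) : Prop := ∀ l : ℕ, ∃ C : ℕ, ∃ᶠ x : ℕ in atTop, GapAt N a g l C x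

/-- one of the differences, multiplied by `k`, is a gap along narrow progressions -/
def GoodK (m : Fin 4 → ℕ) (N a b k : ℕ) : Prop :=
  ∃ i j, m i < m j ∧ NarGap N a (N * (b * ((m j - m i) * k)))

open Classical in
/-- the set of the bad `k` contains no homothetic copy of a finite set -/
theorem dilCore (m : Fin 4 → ℕ) (hm : Function.Injective m) : ∃ W : ℕ, ∀ N a : ℕ, 1 ≤ N → a.Coprime N →
    ∀ b : ℕ, 1 ≤ b → (∀ p : ℕ, p.Prime → ¬ p ∣ N → ∃ r : ℤ, ∀ i, ¬ (p : ℤ) ∣ b * m i + r) →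
    ∀ (x : ℤ) (l : ℕ), 1 ≤ l → ¬ ∀ z : ℤ, |z| ≤ W → ∃ k : ℕ, (0 < k ∧ ¬ GoodK m N a b k) ∧
      x + l * z = (k : ℤ) := by
  obtain ⟨K, hK, hnar⟩ := Pool.Agent.Y827.RO.narR 4 1 (by norm_num) (by norm_num)
  have : Nonempty (Fin K) := ⟨⟨0, hK⟩⟩
  obtain ⟨P, hP⟩ : ∃ P : ℕ, P = ∏ x ∈ (univ : Finset (Fin 4 × Fin 4)).filter (fun x => x.1 ≠ x.2),
    ((m x.2 : ℤ) - m x.1).natAbs := ⟨_, rfl⟩
  have hmne : ∀ g h : Fin 4, g ≠ h → (m h : ℤ) - m g ≠ 0 := by
    intro g h hgh h0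
    have h1 : (m h : ℤ) = m g := by linarith
    exact hgh (hm (by exact_mod_cast h1.symm))
  have hPpos : 0 < P := by
    rw [hP]
    refine prod_pos fun x hx => ?_
    exact Int.natAbs_pos.2 (hmne _ _ (mem_filter.1 hx).2)
  have hPdvd : ∀ g h : Fin 4, g ≠ h → ((m h : ℤ) - m g) ∣ (P : ℤ) := by
    intro g h hgh
    rw [← Int.natAbs_dvd_natAbs, Int.natAbs_natCast, hP]
    exact dvd_prod_of_mem (fun x : Fin 4 × Fin 4 => ((m x.2 : ℤ) - m x.1).natAbs)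
      (mem_filter.2 ⟨mem_univ (g, h), hgh⟩)
  obtain ⟨v, hv⟩ : ∃ v : (Fin 4 × Fin K) × (Fin 4 × Fin K) → ℤ, v = fun z =>
    if z.1.1 = z.2.1 then 0 else (P : ℤ) / ((m z.2.1 : ℤ) - m z.1.1) *
      (((z.2.2 : ℕ) : ℤ) - ((z.1.2 : ℕ) : ℤ)) := ⟨_, rfl⟩
  have hvb : ∀ z, |v z| ≤ ((P * K : ℕ) : ℤ) := by
    intro z
    rw [hv]
    simp only
    split_ifs with hz
    · rw [abs_zero]; exact Nat.cast_nonneg _
    · rw [abs_mul]
      have h1 : |(P : ℤ) / ((m z.2.1 : ℤ) - m z.1.1)| ≤ P := by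
        obtain ⟨t, ht⟩ := hPdvd _ _ hz
        have h2 := hmne _ _ hz
        have h0 : (P : ℤ) / ((m z.2.1 : ℤ) - m z.1.1) = t := by
          rw [ht, Int.mul_ediv_cancel_left _ h2]
        rw [h0]
        have h3 : 1 ≤ |(m z.2.1 : ℤ) - m z.1.1| := Int.one_le_abs h2
        have h4 : (P : ℤ) = |(m z.2.1 : ℤ) - m z.1.1| * |t| := by
          rw [← abs_mul, ← ht, abs_of_nonneg (Nat.cast_nonneg _)]
        nlinarith [abs_nonneg t]
      have h2 : |((z.2.2 : ℕ) : ℤ) - ((z.1.2 : ℕ) : ℤ)| ≤ K := by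
        have a1 : ((z.2.2 : ℕ) : ℤ) ≤ K := by exact_mod_cast z.2.2.2.le
        have a2 : (0 : ℤ) ≤ ((z.2.2 : ℕ) : ℤ) := Nat.cast_nonneg _
        have a3 : ((z.1.2 : ℕ) : ℤ) ≤ K := by exact_mod_cast z.1.2.2.le
        have a4 : (0 : ℤ) ≤ ((z.1.2 : ℕ) : ℤ) := Nat.cast_nonneg _
        rw [abs_le]
        constructor <;> linarith
      push_cast
      exact mul_le_mul h1 h2 (abs_nonneg _) (Nat.cast_nonneg _)
  obtain ⟨q, hq⟩ : ∃ q : ℕ, q = (4 * K).factorial := ⟨_, rfl⟩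
  have hq1 : 1 ≤ q := by rw [hq]; exact Nat.factorial_pos _
  refine ⟨q * (P * K), fun N a hN ha b hb hadm x l hl1 hx => ?_⟩
  have hbad : ∀ z, ∃ k : ℕ, (0 < k ∧ ¬ GoodK m N a b k) ∧ x + l * (q * v z) = (k : ℤ) := by
    intro z
    refine hx (q * v z) ?_
    rw [abs_mul, Nat.abs_cast]
    have h1 := mul_le_mul_of_nonneg_left (hvb z) (Nat.cast_nonneg (α := ℤ) q)
    push_cast at h1 ⊢
    exact h1
  -- the base point
  obtain ⟨k0, hk0, hxk⟩ := hbad ((0, Classical.arbitrary _), (0, Classical.arbitrary _))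
  have hv0 : v ((0, Classical.arbitrary (Fin K)), (0, Classical.arbitrary (Fin K))) = 0 := by
    rw [hv]; simp
  rw [hv0, mul_zero, mul_zero, add_zero] at hxk
  obtain ⟨c, hc⟩ : ∃ c : Fin 4 × Fin K → ℕ, c = fun z =>
    b * m z.1 * k0 + b * l * q * P * (z.2 : ℕ) := ⟨_, rfl⟩
  have hdiff : ∀ z w : Fin 4 × Fin K, z.1 ≠ w.1 → ∃ k : ℕ, (0 < k ∧ ¬ GoodK m N a b k) ∧
      (c w : ℤ) - c z = b * (((m w.1 : ℤ) - m z.1) * k) := by
    intro z w hzw
    obtain ⟨k, hk, h1⟩ := hbad (z, w)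
    refine ⟨k, hk, ?_⟩
    rw [← h1, hv, hc]
    simp only [if_neg hzw]
    obtain ⟨t, ht⟩ := hPdvd _ _ hzw
    have h2 := hmne _ _ hzw
    have h3 : (P : ℤ) / ((m w.1 : ℤ) - m z.1) = t := by
      rw [ht, Int.mul_ediv_cancel_left _ h2]
    rw [h3, hxk]
    push_cast
    rw [ht]
    ring
  have hcinj : Function.Injective c := by
    intro z w h
    by_cases hzw : z.1 = w.1
    · have h1 : b * m z.1 * k0 + b * l * q * P * (z.2 : ℕ) =
          b * m w.1 * k0 + b * l * q * P * (w.2 : ℕ) := by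
        rw [hc] at h; exact h
      rw [hzw] at h1
      have h2 : b * l * q * P * (z.2 : ℕ) = b * l * q * P * (w.2 : ℕ) := by omega
      have h3 : 0 < b * l * q * P := by positivity
      have h4 := Nat.eq_of_mul_eq_mul_left h3 h2
      exact Prod.ext hzw (Fin.ext h4)
    · exfalso
      obtain ⟨k, hk, h1⟩ := hdiff z w hzw
      rw [h, sub_self] at h1
      have h2 := hmne _ _ hzw
      have h3 : (k : ℤ) ≠ 0 := by
        have := hk.1
        exact_mod_cast this.ne'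
      have h4 : (b : ℤ) ≠ 0 := by exact_mod_cast (by omega : b ≠ 0)
      exact (mul_ne_zero h4 (mul_ne_zero h2 h3)) h1.symm
  have hcadm : ∀ p : ℕ, p.Prime → p ≤ 4 * K → ¬ p ∣ N → ∃ r : ℤ, ∀ z, ¬ (p : ℤ) ∣ c z + r := by
    intro p hp hpK hpN
    have hpq : p ∣ q := by rw [hq]; exact Nat.dvd_factorial hp.pos hpK
    have hpq' : (p : ℤ) ∣ (q : ℤ) := by exact_mod_cast hpq
    have hpp := Nat.prime_iff_prime_int.1 hp
    by_cases hpk : (p : ℤ) ∣ (k0 : ℤ)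
    · refine ⟨1, fun z h => ?_⟩
      have h1 : (p : ℤ) ∣ (c z : ℤ) := by
        rw [hc]
        push_cast
        exact dvd_add (hpk.mul_left _) (((hpq'.mul_left _).mul_right _).mul_right _)
      have h2 : (p : ℤ) ∣ 1 := (dvd_add_right h1).1 h
      exact hpp.not_dvd_one h2
    · obtain ⟨r, hr⟩ := hadm p hp hpN
      refine ⟨r * k0, fun z h => ?_⟩
      have h1 : (p : ℤ) ∣ (b * l * q * P * ((z.2 : ℕ) : ℤ) : ℤ) :=
        ((hpq'.mul_left _).mul_right _).mul_right _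
      have h2 : (p : ℤ) ∣ (b * m z.1 + r) * k0 := by
        have e : ((b : ℤ) * m z.1 + r) * k0 = (c z + r * k0) - b * l * q * P * ((z.2 : ℕ) : ℤ) := by
          rw [hc]
          push_cast
          ring
        rw [e]
        exact dvd_sub h h1
      rcases hpp.dvd_or_dvd h2 with h3 | h3
      · exact hr _ h3
      · exact hpk h3
  -- the bad pairs
  have hneg : ∀ y : (Fin 4 × Fin K) × (Fin 4 × Fin K), ∃ l : ℕ, y.1.1 ≠ y.2.1 → c y.1 < c y.2 →
      ∀ C : ℕ, ∀ᶠ x : ℕ in atTop, ¬ GapAt N a (N * (c y.2 - c y.1)) l C x := by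
    rintro ⟨z, w⟩
    by_cases hzw : z.1 ≠ w.1 ∧ c z < c w
    swap
    · exact ⟨0, fun h1 h2 => absurd ⟨h1, h2⟩ hzw⟩
    obtain ⟨h1, h2⟩ := hzw
    obtain ⟨k, hk, h3⟩ := hdiff z w h1
    have hkb := hk
    have hcz : (0 : ℤ) < (c w : ℤ) - c z := by
      have : (c z : ℤ) < c w := by exact_mod_cast h2
      linarith
    have hmlt : m z.1 < m w.1 := by
      by_contra hle
      have h4 : (m w.1 : ℤ) - m z.1 ≤ 0 := by
        have : (m w.1 : ℤ) ≤ m z.1 := by exact_mod_cast (not_lt.1 hle)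
        linarith
      have h5 : (b : ℤ) * (((m w.1 : ℤ) - m z.1) * k) ≤ 0 := by
        have h6 : (0 : ℤ) ≤ b := Nat.cast_nonneg _
        have h7 : (0 : ℤ) ≤ k := Nat.cast_nonneg _
        exact mul_nonpos_of_nonneg_of_nonpos h6 (mul_nonpos_of_nonpos_of_nonneg h4 h7)
      linarith
    have hcd : c w - c z = b * ((m w.1 - m z.1) * k) := by
      have h4 : ((c w - c z : ℕ) : ℤ) = ((b * ((m w.1 - m z.1) * k) : ℕ) : ℤ) := by
        rw [Nat.cast_sub h2.le, h3]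
        push_cast [Nat.cast_sub hmlt.le]
        ring
      exact_mod_cast h4
    have hng : ¬ NarGap N a (N * (c w - c z)) := by
      intro h
      apply hkb.2
      exact ⟨z.1, w.1, hmlt, by rw [← hcd]; exact h⟩
    unfold NarGap at hng
    push Not at hng
    obtain ⟨l, hl⟩ := hng
    refine ⟨l, fun _ _ C => ?_⟩
    exact Filter.not_frequently.1 (by simpa using hl C)
  choose ll hll using hneg
  obtain ⟨lm, hlm⟩ : ∃ lm : ℕ, lm = ∑ y, ll y := ⟨_, rfl⟩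
  have hlle : ∀ y, ll y ≤ lm := fun y => by
    rw [hlm]; exact single_le_sum (f := ll) (fun _ _ => Nat.zero_le _) (mem_univ y)
  obtain ⟨C, hC⟩ := cons hnar N a hN ha c hcinj hcadm lm
  have hall : ∀ᶠ x : ℕ in atTop, ∀ y : (Fin 4 × Fin K) × (Fin 4 × Fin K), y.1.1 ≠ y.2.1 →
      c y.1 < c y.2 → ¬ GapAt N a (N * (c y.2 - c y.1)) (ll y) C x := by
    rw [eventually_all]
    intro y
    by_cases hy : y.1.1 ≠ y.2.1 ∧ c y.1 < c y.2
    · filter_upwards [hll y hy.1 hy.2 C] with x hx _ _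
      exact hx
    · exact Eventually.of_forall fun x h1 h2 => absurd ⟨h1, h2⟩ hy
  obtain ⟨x', h1, h2⟩ := (hC.and hall).exists
  obtain ⟨z, w, hzw, hlt, hgap⟩ := h1
  exact h2 (z, w) hzw hlt (GapAt_len (hlle (z, w)) hgap)

/-- every progression of `ℓ` positive integers contains a good `k` -/
theorem dilAP (m : Fin 4 → ℕ) (hm : Function.Injective m) : ∃ ℓ : ℕ, ∀ N a : ℕ, 1 ≤ N → a.Coprime N →
    ∀ b : ℕ, 1 ≤ b → (∀ p : ℕ, p.Prime → ¬ p ∣ N → ∃ r : ℤ, ∀ i, ¬ (p : ℤ) ∣ b * m i + r) →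
    ∀ x d : ℕ, 1 ≤ x → 1 ≤ d → ∃ t < ℓ, GoodK m N a b (x + t * d) := by
  obtain ⟨W, h⟩ := dilCore m hm
  refine ⟨2 * W + 1, fun N a hN ha b hb hadm x d hx hd => ?_⟩
  by_contra hcon
  push Not at hcon
  refine h N a hN ha b hb hadm ((x : ℤ) + W * d) d hd (fun z hz => ?_)
  have h1 := abs_le.1 hz
  have h2 : (((z + W).toNat : ℕ) : ℤ) = z + W := Int.toNat_of_nonneg (by linarith)
  refine ⟨x + (z + W).toNat * d, ⟨by omega, hcon _ ?_⟩, ?_⟩
  · have : (((z + W).toNat : ℕ) : ℤ) < ((2 * W + 1 : ℕ) : ℤ) := by rw [h2]; push_cast; linarith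
    exact_mod_cast this
  · push_cast
    rw [h2]
    ring

open Classical in
theorem allDil (m : Fin 4 → ℕ) (hm : Function.Injective m) (ε : ℝ) (hε : 0 < ε) :
    ∃ L : ℕ, ∀ N a : ℕ, 1 ≤ N → a.Coprime N → ∀ b : ℕ, 1 ≤ b →
    (∀ p : ℕ, p.Prime → ¬ p ∣ N → ∃ r : ℤ, ∀ i, ¬ (p : ℤ) ∣ b * m i + r) →
    ∀ u T : ℕ, L ≤ T →
    (1 - ε) * (T : ℝ) ≤ (((Ioc u (u + T)).filter (fun k => GoodK m N a b k)).card : ℝ) := by
  obtain ⟨ℓ, h⟩ := dilAP m hm
  obtain ⟨n, hn, hsz⟩ := Pool.Agent.Y863.AA.msz (Fin (ℓ + 1)) ε hε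
  refine ⟨n * ℓ + 1, fun N a hN ha b hb hadm u T hT => ?_⟩
  by_contra hcon
  rw [not_le] at hcon
  obtain ⟨Bn, hBn⟩ : ∃ Bn : Finset ℕ, Bn = (Ioc u (u + T)).filter (fun k => ¬ GoodK m N a b k) := ⟨_, rfl⟩
  have hsum : ((Ioc u (u + T)).filter (fun k => GoodK m N a b k)).card + Bn.card = T := by
    rw [hBn, card_filter_add_card_filter_not, Nat.card_Ioc]
    omega
  have h2 : ((((Ioc u (u + T)).filter (fun k => GoodK m N a b k)).card + Bn.card : ℕ) : ℝ) = T := by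
    rw [hsum]
  push_cast at h2
  have hmem : ∀ k ∈ Bn, u < k ∧ k ≤ u + T ∧ ¬ GoodK m N a b k := by
    intro k hk
    rw [hBn, mem_filter, mem_Ioc] at hk
    exact ⟨hk.1.1, hk.1.2, hk.2⟩
  obtain ⟨B, hB⟩ : ∃ B : Finset ℕ, B = Bn.image (fun k => k - u) := ⟨_, rfl⟩
  have hBc : B.card = Bn.card := by
    rw [hB]
    apply card_image_of_injOn
    intro k hk k' hk' hkk
    have h3 := hmem k (mem_coe.1 hk)
    have h4 := hmem k' (mem_coe.1 hk')
    have h5 : k - u = k' - u := hkk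
    omega
  obtain ⟨x, l, hl1, -, hx⟩ := hsz (fun t => ((t : ℕ) : ℤ)) ℓ (by
      intro t
      rw [Nat.abs_cast]
      exact_mod_cast Nat.le_of_lt_succ t.2) T (by omega) (by omega) B (by
      intro y hy
      rw [hB, mem_image] at hy
      obtain ⟨k, hk, rfl⟩ := hy
      have h3 := hmem k hk
      rw [mem_Ioc]
      omega) (by
      rw [hBc]
      linarith)
  have hbad : ∀ t : Fin (ℓ + 1), ∃ k : ℕ, 1 ≤ k ∧ ¬ GoodK m N a b k ∧ (u : ℤ) + x + l * ((t : ℕ) : ℤ) = k := by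
    intro t
    obtain ⟨y, hy, h3⟩ := hx t
    rw [hB, mem_image] at hy
    obtain ⟨k, hk, rfl⟩ := hy
    have h4 := hmem k hk
    refine ⟨k, by omega, h4.2.2, ?_⟩
    have h5 : ((k - u : ℕ) : ℤ) = (k : ℤ) - u := by
      rw [Nat.cast_sub h4.1.le]
    rw [h5] at h3
    linarith
  obtain ⟨k0, hk0, -, hk0'⟩ := hbad 0
  obtain ⟨t, ht, hg⟩ := h N a hN ha b hb hadm k0 l hk0 hl1
  obtain ⟨k, -, hk, hk'⟩ := hbad ⟨t, by omega⟩
  have h6 : k = k0 + t * l := by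
    have h7 : (k : ℤ) = ((k0 + t * l : ℕ) : ℤ) := by
      push_cast
      rw [← hk', ← hk0']
      push_cast
      simp only [Fin.val_zero, Nat.cast_zero]
      ring
    exact_mod_cast h7
  rw [h6] at hk
  exact hk hg

end Pool.Agent.P8H13.AD
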